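import Pool.Agent.Q29.EqMain

set_option autoImplicit false

/-!
# Exceptional multiplicities in polynomial sequences and along primes

Let `r` be a number which is no square, and let `Bad` be a property of the multiplicities `m` which implies that some
integer lies in the interval of length `(A + B) / 2` around `√r m + (√r - 3) / 2`. Then the proportion of the bad
multiplicities is at most `(A + B) / 2`, up to a power saving, in the sequences `f(n)`, `n < M`, and `b p + h`,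
`p ≤ M` prime, `p ≡ a mod d`, uniformly for `M > 9 r`.
-/

namespace Pool.Agent.Q54.FM

open Finset Polynomial Pool.Agent.Q29.Eqd

/-- `√r` has no good rational approximations. -/
lemma not_res (r : ℕ) (hr : ¬ IsSquare r) (M : ℕ) (hM : 9 * r < M) : ¬ Res (1 / 4) M (Real.sqrt r) := by
  rintro ⟨q, hq1, hq2, a, ha⟩
  have hr0 : 0 < r := by
    rcases Nat.eq_zero_or_pos r with h | h
    · exact absurd (h ▸ ⟨0, by simp⟩) hr
    · exact h
  have hrR : (1 : ℝ) ≤ r := by exact_mod_cast hr0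
  have hM0 : (0 : ℝ) < M := by
    have : 0 < M := by omega
    exact_mod_cast this
  have hMr : 9 * (r : ℝ) < M := by exact_mod_cast hM
  have hM1 : (1 : ℝ) ≤ M := by linarith
  have hs0 : 0 ≤ Real.sqrt r := Real.sqrt_nonneg _
  have hs1 : 1 ≤ Real.sqrt r := by
    rw [Real.one_le_sqrt]
    exact hrR
  have hss : Real.sqrt r * Real.sqrt r = r := Real.mul_self_sqrt (by linarith)
  have hq1R : (1 : ℝ) ≤ q := by exact_mod_cast hq1
  have hX : (M : ℝ) ^ ((1 / 4 : ℝ) - 1) ≤ 1 := Real.rpow_le_one_of_one_le_of_nonpos hM1 (by norm_num)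
  have habs : |(q : ℝ) * Real.sqrt r - a| ≤ 1 := ha.trans hX
  -- the product of the conjugates
  have hne : (q : ℤ) ^ 2 * (r : ℤ) - a ^ 2 ≠ 0 := by
    intro h
    apply hr
    have h1 : (q : ℤ) ^ 2 * (r : ℤ) = a ^ 2 := by linarith
    have h2 : q ^ 2 * r = a.natAbs ^ 2 := by
      have h3 : ((q ^ 2 * r : ℕ) : ℤ) = ((a.natAbs ^ 2 : ℕ) : ℤ) := by
        push_cast
        rw [sq_abs]
        exact h1
      exact_mod_cast h3
    have h4 : q ∣ a.natAbs := by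
      rw [← Nat.pow_dvd_pow_iff (n := 2) (by norm_num)]
      exact ⟨r, h2.symm⟩
    obtain ⟨t, ht⟩ := h4
    refine ⟨t, ?_⟩
    rw [ht, mul_pow] at h2
    have h5 : 0 < q ^ 2 := by positivity
    have h6 := Nat.eq_of_mul_eq_mul_left h5 h2
    rw [h6, sq]
  have hge : (1 : ℝ) ≤ |((q : ℝ) * Real.sqrt r - a) * ((q : ℝ) * Real.sqrt r + a)| := by
    have h1 : ((q : ℝ) * Real.sqrt r - a) * ((q : ℝ) * Real.sqrt r + a) = (((q : ℤ) ^ 2 * (r : ℤ) - a ^ 2 : ℤ) : ℝ) := by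
      push_cast
      have : ((q : ℝ) * Real.sqrt r - a) * ((q : ℝ) * Real.sqrt r + a) = (q : ℝ) ^ 2 * (Real.sqrt r * Real.sqrt r) - a ^ 2 := by
        ring
      rw [this, hss]
    rw [h1]
    have h2 : (1 : ℤ) ≤ |(q : ℤ) ^ 2 * (r : ℤ) - a ^ 2| := Int.one_le_abs hne
    rw [← Int.cast_abs]
    exact_mod_cast h2
  have hplus : |(q : ℝ) * Real.sqrt r + a| ≤ 3 * (q * Real.sqrt r) := by
    have h1 : (1 : ℝ) ≤ q * Real.sqrt r := by nlinarith
    have h2 := abs_le.1 habs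
    rw [abs_le]
    constructor <;> linarith
  rw [abs_mul] at hge
  have h1 : 1 ≤ (M : ℝ) ^ ((1 / 4 : ℝ) - 1) * (3 * ((M : ℝ) ^ (1 / 4 : ℝ) * Real.sqrt r)) := by
    refine hge.trans ?_
    apply mul_le_mul ha _ (abs_nonneg _) (by positivity)
    refine hplus.trans ?_
    have : (q : ℝ) * Real.sqrt r ≤ (M : ℝ) ^ (1 / 4 : ℝ) * Real.sqrt r := mul_le_mul_of_nonneg_right hq2 hs0
    linarith
  have h2 : (M : ℝ) ^ ((1 / 4 : ℝ) - 1) * (M : ℝ) ^ (1 / 4 : ℝ) = (Real.sqrt M)⁻¹ := by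
    rw [← Real.rpow_add hM0, Real.sqrt_eq_rpow, ← Real.rpow_neg hM0.le]
    norm_num
  have h3 : 1 ≤ (Real.sqrt M)⁻¹ * (3 * Real.sqrt r) := by
    calc 1 ≤ (M : ℝ) ^ ((1 / 4 : ℝ) - 1) * (3 * ((M : ℝ) ^ (1 / 4 : ℝ) * Real.sqrt r)) := h1
      _ = ((M : ℝ) ^ ((1 / 4 : ℝ) - 1) * (M : ℝ) ^ (1 / 4 : ℝ)) * (3 * Real.sqrt r) := by ring
      _ = _ := by rw [h2]
  have hsM : 0 < Real.sqrt M := Real.sqrt_pos.2 hM0
  rw [inv_mul_eq_div, le_div_iff₀ hsM, one_mul] at h3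
  have h4 : Real.sqrt M ^ 2 ≤ (3 * Real.sqrt r) ^ 2 := pow_le_pow_left₀ hsM.le h3 2
  rw [Real.sq_sqrt hM0.le, mul_pow, Real.sq_sqrt (by linarith)] at h4
  linarith

lemma fract_le {A B x : ℝ} {m d : ℕ} (h1 : -A ≤ 2 * (d : ℝ) + 3 - x * (2 * m + 1))
    (h2 : 2 * (d : ℝ) + 3 - x * (2 * m + 1) ≤ B) : Int.fract (x * m + (x - 3 + B) / 2) ≤ (A + B) / 2 := by
  have h3 : ((d : ℤ) : ℝ) ≤ x * m + (x - 3 + B) / 2 := by
    push_cast
    linarith
  have h4 := Int.le_floor.2 h3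
  have h5 : ((d : ℤ) : ℝ) ≤ (⌊x * m + (x - 3 + B) / 2⌋ : ℝ) := by exact_mod_cast h4
  rw [← Int.self_sub_floor]
  push_cast at h5
  linarith

open Classical in
lemma use_equi (s : Finset ℕ) (y : ℕ → ℝ) (L η E : ℝ) (hL : 0 ≤ L) (hη : 0 < η) (hE : 0 ≤ E)
    (h : ∀ u v : ℝ, 0 ≤ u → u ≤ v → v ≤ 1 →
      |((s.filter fun n => u ≤ Int.fract (y n) ∧ Int.fract (y n) < v).card : ℝ) - (v - u) * s.card| ≤ E) :
    ((s.filter fun n => Int.fract (y n) ≤ L).card : ℝ) ≤ (L + η) * s.card + E := by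
  have hs : (0 : ℝ) ≤ s.card := Nat.cast_nonneg _
  rcases le_or_gt (L + η) 1 with h1 | h1
  · have h2 := (abs_le.1 (h 0 (L + η) le_rfl (by linarith) h1)).2
    have h3 : ((s.filter fun n => Int.fract (y n) ≤ L).card : ℝ) ≤
        ((s.filter fun n => 0 ≤ Int.fract (y n) ∧ Int.fract (y n) < L + η).card : ℝ) := by
      apply Nat.cast_le.2
      apply card_le_card
      intro n hn
      rw [mem_filter] at hn ⊢
      exact ⟨hn.1, Int.fract_nonneg _, by linarith [hn.2]⟩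
    linarith
  · have h3 : ((s.filter fun n => Int.fract (y n) ≤ L).card : ℝ) ≤ s.card := by
      exact_mod_cast card_le_card (filter_subset _ _)
    nlinarith

open Classical in
theorem seqs (K : ℕ) : ∃ κ : ℝ, 0 < κ ∧ κ ≤ 1 ∧ ∃ M₀ : ℕ, 2 ≤ M₀ ∧ ∀ r : ℕ, ¬ IsSquare r → ∀ M : ℕ, M₀ ≤ M →
    9 * r < M → ∀ (A B : ℝ), 0 ≤ A + B → ∀ Bad : ℕ → Prop,
    (∀ m : ℕ, 0 < m → Bad m → ∃ d : ℕ, -A ≤ 2 * (d : ℝ) + 3 - Real.sqrt r * (2 * m + 1) ∧
      2 * (d : ℝ) + 3 - Real.sqrt r * (2 * m + 1) ≤ B) →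
    (∀ f : ℤ[X], 1 ≤ f.natDegree → f.natDegree ≤ K → |(f.leadingCoeff : ℝ)| ≤ (M : ℝ) ^ κ →
      (((range M).filter fun n : ℕ => 0 < f.eval (n : ℤ) ∧ Bad (f.eval (n : ℤ)).toNat).card : ℝ) ≤
        (A + B) / 2 * M + 2 * (M : ℝ) ^ (1 - κ)) ∧
    (∀ b h : ℤ, b ≠ 0 → |(b : ℝ)| ≤ (M : ℝ) ^ κ → ∀ d a : ℕ, 1 ≤ d → (d : ℝ) ≤ (M : ℝ) ^ κ →
      (((range (M + 1)).filter fun p : ℕ => (p.Prime ∧ p ≡ a [MOD d]) ∧ 0 < b * p + h ∧
          Bad (b * p + h).toNat).card : ℝ) ≤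
        (A + B) / 2 * ((range (M + 1)).filter fun p : ℕ => p.Prime ∧ p ≡ a [MOD d]).card +
          2 * (M : ℝ) ^ (1 - κ)) := by
  obtain ⟨κ, hκ, hκ1, M₀, hM₀, hE⟩ := engine K (1 / 4) (by norm_num) (by norm_num)
  refine ⟨κ, hκ, hκ1, M₀, hM₀, fun r hr M hM hMr A B hAB Bad hBad => ?_⟩
  obtain ⟨g1, g2⟩ := hE M hM (Real.sqrt r) (not_res r hr M hMr)
  have hM0 : (0 : ℝ) < M := by
    have : 0 < M := by omega
    exact_mod_cast this
  have hη : 0 < (M : ℝ) ^ (-κ) := by positivity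
  have hE0 : 0 ≤ (M : ℝ) ^ (1 - κ) := by positivity
  have hprod : (M : ℝ) ^ (-κ) * M = (M : ℝ) ^ (1 - κ) := by
    nth_rewrite 2 [← Real.rpow_one (M : ℝ)]
    rw [← Real.rpow_add hM0]
    congr 1
    ring
  have hfr : ∀ m : ℤ, 0 < m → Bad m.toNat →
      Int.fract (Real.sqrt r * m + (Real.sqrt r - 3 + B) / 2) ≤ (A + B) / 2 := by
    intro m hm hb
    obtain ⟨d, h1, h2⟩ := hBad m.toNat (by omega) hb
    have h3 : ((m.toNat : ℕ) : ℝ) = (m : ℝ) := by
      have : ((m.toNat : ℕ) : ℤ) = m := Int.toNat_of_nonneg hm.le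
      exact_mod_cast congrArg (fun z : ℤ => (z : ℝ)) this
    have h4 := fract_le h1 h2
    rwa [h3] at h4
  constructor
  · intro f hf1 hfK hlc
    have hf0 : f ≠ 0 := by
      rintro rfl
      simp at hf1
    have hR : (C (Real.sqrt r) * f.eraseLead.map (Int.castRingHom ℝ) + C ((Real.sqrt r - 3 + B) / 2)).degree <
        (f.natDegree : WithBot ℕ) := by
      have h1 : (f.eraseLead.map (Int.castRingHom ℝ)).degree < (f.natDegree : WithBot ℕ) := by
        refine lt_of_le_of_lt (degree_map_le) ?_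
        rw [← degree_eq_natDegree hf0]
        exact degree_eraseLead_lt hf0
      refine lt_of_le_of_lt (degree_add_le _ _) (max_lt ?_ ?_)
      · rw [← smul_eq_C_mul]
        exact lt_of_le_of_lt (degree_smul_le _ _) h1
      · refine lt_of_le_of_lt degree_C_le ?_
        exact_mod_cast hf1
    have h2 := use_equi (range M) (fun n : ℕ => (f.leadingCoeff : ℝ) * Real.sqrt r * (n : ℝ) ^ f.natDegree +
      (C (Real.sqrt r) * f.eraseLead.map (Int.castRingHom ℝ) + C ((Real.sqrt r - 3 + B) / 2)).eval (n : ℝ))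
      ((A + B) / 2) ((M : ℝ) ^ (-κ)) ((M : ℝ) ^ (1 - κ)) (by linarith) hη hE0 (by
        intro u v hu huv hv
        rw [card_range]
        exact g1 f.leadingCoeff (leadingCoeff_ne_zero.2 hf0) hlc f.natDegree hf1 hfK _ hR u v hu huv hv)
    rw [card_range] at h2
    have h3 : (((range M).filter fun n : ℕ => 0 < f.eval (n : ℤ) ∧ Bad (f.eval (n : ℤ)).toNat).card : ℝ) ≤
        ((A + B) / 2 + (M : ℝ) ^ (-κ)) * M + (M : ℝ) ^ (1 - κ) := by
      refine le_trans (Nat.cast_le.2 (card_le_card ?_)) h2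
      intro n hn
      rw [mem_filter] at hn ⊢
      refine ⟨hn.1, ?_⟩
      have h4 := hfr _ hn.2.1 hn.2.2
      have h5 : (f.leadingCoeff : ℝ) * Real.sqrt r * (n : ℝ) ^ f.natDegree +
          (C (Real.sqrt r) * f.eraseLead.map (Int.castRingHom ℝ) + C ((Real.sqrt r - 3 + B) / 2)).eval (n : ℝ) =
          Real.sqrt r * (f.eval (n : ℤ) : ℤ) + (Real.sqrt r - 3 + B) / 2 := by
        have h6 : ((f.eval (n : ℤ) : ℤ) : ℝ) = (f.eraseLead.map (Int.castRingHom ℝ)).eval (n : ℝ) +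
            f.leadingCoeff * (n : ℝ) ^ f.natDegree := by
          conv_lhs => rw [← eraseLead_add_C_mul_X_pow f]
          rw [eval_add, eval_mul, eval_C, eval_pow, eval_X]
          have h7 : (f.eraseLead.map (Int.castRingHom ℝ)).eval (n : ℝ) = ((f.eraseLead.eval (n : ℤ) : ℤ) : ℝ) := by
            rw [eval_map, ← Int.cast_natCast (R := ℝ) n]
            exact (hom_eval₂ f.eraseLead (RingHom.id ℤ) (Int.castRingHom ℝ) (n : ℤ)).symm
          rw [h7]
          push_cast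
          ring
        rw [h6, eval_add, eval_mul, eval_C, eval_C]
        ring
      rw [h5]
      exact h4
    calc (((range M).filter fun n : ℕ => 0 < f.eval (n : ℤ) ∧ Bad (f.eval (n : ℤ)).toNat).card : ℝ)
        ≤ ((A + B) / 2 + (M : ℝ) ^ (-κ)) * M + (M : ℝ) ^ (1 - κ) := h3
      _ = (A + B) / 2 * M + (M : ℝ) ^ (-κ) * M + (M : ℝ) ^ (1 - κ) := by ring
      _ = _ := by
        rw [hprod]
        ring
  · intro b h hb hbM d a hd hdM
    have h2 := use_equi ((range (M + 1)).filter fun p : ℕ => p.Prime ∧ p ≡ a [MOD d])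
      (fun p : ℕ => (b : ℝ) * Real.sqrt r * p + (Real.sqrt r * h + (Real.sqrt r - 3 + B) / 2))
      ((A + B) / 2) ((M : ℝ) ^ (-κ)) ((M : ℝ) ^ (1 - κ)) (by linarith) hη hE0 (by
        intro u v hu huv hv
        rw [filter_filter]
        exact g2 b hb hbM d a hd hdM _ u v hu huv hv)
    have hcard : (((range (M + 1)).filter fun p : ℕ => p.Prime ∧ p ≡ a [MOD d]).card : ℝ) ≤ M := by
      have hsub : ((range (M + 1)).filter fun p : ℕ => p.Prime ∧ p ≡ a [MOD d]) ⊆ Ioc 0 M := by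
        intro p hp
        rw [mem_filter, mem_range] at hp
        rw [mem_Ioc]
        exact ⟨hp.2.1.pos, by omega⟩
      have h3 := card_le_card hsub
      rw [Nat.card_Ioc, Nat.sub_zero] at h3
      exact_mod_cast h3
    have h3 : (((range (M + 1)).filter fun p : ℕ => (p.Prime ∧ p ≡ a [MOD d]) ∧ 0 < b * p + h ∧
          Bad (b * p + h).toNat).card : ℝ) ≤
        ((A + B) / 2 + (M : ℝ) ^ (-κ)) * ((range (M + 1)).filter fun p : ℕ => p.Prime ∧ p ≡ a [MOD d]).card +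
          (M : ℝ) ^ (1 - κ) := by
      refine le_trans (Nat.cast_le.2 (card_le_card ?_)) h2
      intro p hp
      rw [mem_filter] at hp
      rw [mem_filter, mem_filter]
      refine ⟨⟨hp.1, hp.2.1⟩, ?_⟩
      have h4 := hfr _ hp.2.2.1 hp.2.2.2
      have h5 : (b : ℝ) * Real.sqrt r * p + (Real.sqrt r * h + (Real.sqrt r - 3 + B) / 2) =
          Real.sqrt r * ((b * p + h : ℤ) : ℝ) + (Real.sqrt r - 3 + B) / 2 := by
        push_cast
        ring
      rw [h5]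
      exact h4
    have h6 : (M : ℝ) ^ (-κ) * ((range (M + 1)).filter fun p : ℕ => p.Prime ∧ p ≡ a [MOD d]).card ≤
        (M : ℝ) ^ (1 - κ) := by
      rw [← hprod]
      exact mul_le_mul_of_nonneg_left hcard hη.le
    linarith

end Pool.Agent.Q54.FM
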