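import Pool.Agent.Q54.FM.Several
import Pool.Agent.Q54.FM.Seq
import Pool.Agent.TH885.NW.Exp2

set_option autoImplicit false

/-!
# Several numbers of points at once
-/

namespace Pool.Agent.Q54.FM

open Finset Polynomial Pool.Agent.Q29.Eqd

/-- the conclusion for a property `P` of the multiplicities and the proportion `η` -/
def Sparse (κ : ℝ) (K M : ℕ) (η : ℝ) (P : ℕ → Prop) : Prop :=
  (∀ f : ℤ[X], 1 ≤ f.natDegree → f.natDegree ≤ K → |(f.leadingCoeff : ℝ)| ≤ (M : ℝ) ^ κ →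
    ({n : ℕ | n < M ∧ 0 < f.eval (n : ℤ) ∧ ¬ P (f.eval (n : ℤ)).toNat}.ncard : ℝ) ≤
      η * M + (M : ℝ) ^ (1 - κ)) ∧
  (∀ b h : ℤ, b ≠ 0 → |(b : ℝ)| ≤ (M : ℝ) ^ κ → ∀ d a : ℕ, 1 ≤ d → (d : ℝ) ≤ (M : ℝ) ^ κ →
    ({p : ℕ | p ≤ M ∧ p.Prime ∧ p ≡ a [MOD d] ∧ 0 < b * p + h ∧ ¬ P (b * p + h).toNat}.ncard : ℝ) ≤
      η * ({p : ℕ | p ≤ M ∧ p.Prime ∧ p ≡ a [MOD d]}.ncard : ℝ) + (M : ℝ) ^ (1 - κ))

/-- `seqs_joint` for functions on a finite set -/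
theorem seqs_fin (T : Finset ℕ) (hT : T.Nonempty) (σ u : ℕ → ℕ) (hsf : ∀ r ∈ T, Squarefree (σ r))
    (h1 : ∀ r ∈ T, σ r ≠ 1) (hinj : ∀ r ∈ T, ∀ r' ∈ T, σ r = σ r' → r = r') (hu : ∀ r ∈ T, 1 ≤ u r)
    (γ L : ℕ → ℝ) (hL0 : ∀ r ∈ T, 0 ≤ L r) (hL1 : ∀ r ∈ T, L r ≤ 1) (P : ℕ → Prop)
    (hP : ∀ m : ℕ, 0 < m → (∀ r ∈ T, L r < Int.fract (u r * Real.sqrt (σ r) / 3 * m + γ r)) → P m) (K : ℕ) :
    ∃ κ : ℝ, 0 < κ ∧ κ ≤ 1 ∧ ∃ M₀ : ℕ, 2 ≤ M₀ ∧ ∀ M : ℕ, M₀ ≤ M → Sparse κ K M (1 - ∏ r ∈ T, (1 - L r)) P := by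
  classical
  obtain ⟨e⟩ : Nonempty (Fin T.card ≃ {x // x ∈ T}) := ⟨T.equivFin.symm⟩
  have hs : 1 ≤ T.card := Finset.card_pos.2 hT
  obtain ⟨κ, hκ, hκ1, M₀, hM₀, h⟩ := seqs_joint hs (fun j => σ (e j)) (fun j => hsf _ (e j).2) (fun j => h1 _ (e j).2)
    (fun i j hij => e.injective (Subtype.ext (hinj _ (e i).2 _ (e j).2 hij))) (fun j => u (e j))
    (fun j => hu _ (e j).2) 3 (by norm_num) K
  refine ⟨κ, hκ, hκ1, M₀, hM₀, fun M hM => ?_⟩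
  have h2 := h M hM (fun j => γ (e j)) (fun j => L (e j)) (fun j => hL0 _ (e j).2) (fun j => hL1 _ (e j).2) P (by
    intro m hm hj
    apply hP m hm
    intro r hr
    have h3 := hj (e.symm ⟨r, hr⟩)
    simp only [Equiv.apply_symm_apply] at h3
    exact_mod_cast h3)
  have h3 : ∏ j, (1 - L (e j)) = ∏ r ∈ T, (1 - L r) := by
    rw [← Finset.prod_coe_sort T (fun r => 1 - L r)]
    exact Fintype.prod_equiv e _ _ fun j => rfl
  rw [h3] at h2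
  exact h2

/-- several numbers in different square classes -/
theorem several (Z T : Finset ℕ) (hT : T.Nonempty) (hsq : ∀ r ∈ T, ¬ IsSquare r)
    (hpair : ∀ r ∈ T, ∀ r' ∈ T, r ≠ r' → ¬ IsSquare (r * r')) (γ L : ℕ → ℝ) (hL0 : ∀ r ∈ T, 0 ≤ L r)
    (hL1 : ∀ r ∈ T, L r ≤ 1) (P : ℕ → Prop)
    (hP : ∀ m : ℕ, 0 < m → (∀ r ∈ T, L r < Int.fract (Real.sqrt r / (if r ∈ Z then 3 else 1) * m + γ r)) → P m)
    (K : ℕ) :
    ∃ κ : ℝ, 0 < κ ∧ κ ≤ 1 ∧ ∃ M₀ : ℕ, 2 ≤ M₀ ∧ ∀ M : ℕ, M₀ ≤ M → Sparse κ K M (1 - ∏ r ∈ T, (1 - L r)) P := by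
  have hdec : ∀ r : ℕ, ∃ a b : ℕ, b ^ 2 * a = r ∧ Squarefree a := Nat.sq_mul_squarefree
  choose σ b hb hσ using hdec
  have hr0 : ∀ r ∈ T, r ≠ 0 := by
    rintro r hr rfl
    exact hsq 0 hr ⟨0, rfl⟩
  have hb1 : ∀ r ∈ T, 1 ≤ b r := by
    intro r hr
    by_contra hcon
    have h0 : b r = 0 := by omega
    apply hr0 r hr
    rw [← hb r, h0]
    simp
  refine seqs_fin T hT σ (fun r => if r ∈ Z then b r else 3 * b r) (fun r _ => hσ r) ?_ ?_ ?_ γ L hL0 hL1 P ?_ K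
  · intro r hr h
    apply hsq r hr
    rw [← hb r, h, mul_one]
    exact ⟨b r, by ring⟩
  · intro r hr r' hr' h
    by_contra hne
    apply hpair r hr r' hr' hne
    refine ⟨b r * b r' * σ r, ?_⟩
    conv_lhs => rw [← hb r, ← hb r', ← h]
    ring
  · intro r hr
    have := hb1 r hr
    by_cases h : r ∈ Z
    · simp only [h, if_true]
      exact this
    · simp only [h, if_false]
      omega
  · intro m hm h
    apply hP m hm
    intro r hr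
    have h2 := h r hr
    have h3 : Real.sqrt r = b r * Real.sqrt (σ r) := by
      conv_lhs => rw [← hb r]
      push_cast
      rw [Real.sqrt_mul (by positivity), Real.sqrt_sq (by positivity)]
    rw [h3]
    by_cases hz : r ∈ Z
    · simp only [hz, if_true] at h2 ⊢
      exact h2
    · simp only [hz, if_false] at h2 ⊢
      have h4 : (b r : ℝ) * Real.sqrt (σ r) / 1 * m + γ r = ((3 * b r : ℕ) : ℝ) * Real.sqrt (σ r) / 3 * m + γ r := by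
        push_cast
        ring
      rw [h4]
      exact h2

/-- What is known on the multiplicities `m` for which `G r m` holds. -/
def Inputs (G : ℕ → ℕ → Prop) : Prop :=
  (∀ r m : ℕ, 10 ≤ r → 0 < m → ¬ G r m → ∃ d : ℕ, -TH885.NW.loW r ≤ 2 * (d : ℝ) + 3 - Real.sqrt r * (2 * m + 1) ∧
    2 * (d : ℝ) + 3 - Real.sqrt r * (2 * m + 1) ≤ TH885.NW.upW r) ∧
  (∀ r m : ℕ, r = 11 ∨ r = 15 → 0 < m → ¬ G r m → ∃ k : ℕ, Real.sqrt r * m ≤ 3 * k ∧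
    6 * (k : ℝ) + 3 < Real.sqrt r * (2 * m + 1)) ∧
  (∀ r m : ℕ, 37 ≤ r ∨ r = 13 ∨ r = 21 ∨ (10 ≤ r ∧ IsSquare r) → 0 < m → G r m)

/-- the proportion of the exceptions -/
noncomputable def bd (r : ℕ) : ℝ :=
  if r = 11 ∨ r = 15 then (Real.sqrt r - 3) / 6 else (TH885.NW.loW r + TH885.NW.upW r) / 2

/-- the shift -/
noncomputable def gm (r : ℕ) : ℝ :=
  if r = 11 ∨ r = 15 then (Real.sqrt r - 3) / 6 else (Real.sqrt r - 3 + TH885.NW.upW r) / 2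

lemma sqrt_ge {r : ℕ} (hr : 10 ≤ r) : 3 ≤ Real.sqrt r := by
  apply Real.le_sqrt_of_sq_le
  have : (10 : ℝ) ≤ r := by exact_mod_cast hr
  linarith

lemma bd_nonneg {r : ℕ} (hr : 10 ≤ r) : 0 ≤ bd r := by
  unfold bd
  have h1 := sqrt_ge hr
  obtain ⟨h2, h3, h4⟩ := TH885.NW.win_len hr
  split_ifs <;> linarith

lemma bd_lt {r : ℕ} (hr : 10 ≤ r) : bd r < 1 := by
  unfold bd
  obtain ⟨h2, h3, h4⟩ := TH885.NW.win_len hr
  split_ifs with h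
  · have h5 : Real.sqrt r < 4 := by
      rw [Real.sqrt_lt' (by norm_num)]
      rcases h with rfl | rfl <;> norm_num
    linarith
  · linarith

lemma good_of {G : ℕ → ℕ → Prop} (hG : Inputs G) {r m : ℕ} (hr : 10 ≤ r) (hm : 0 < m)
    (h : bd r < Int.fract (Real.sqrt r / (if r ∈ ({11, 15} : Finset ℕ) then 3 else 1) * m + gm r)) : G r m := by
  by_contra hcon
  by_cases hr1 : r = 11 ∨ r = 15
  · have hz : r ∈ ({11, 15} : Finset ℕ) := by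
      rcases hr1 with rfl | rfl <;> decide
    obtain ⟨k, hk1, hk2⟩ := hG.2.1 r m hr1 hm hcon
    unfold bd gm at h
    simp only [hz, hr1, if_true] at h
    have h1 : ((k : ℤ) : ℝ) ≤ Real.sqrt r / 3 * m + (Real.sqrt r - 3) / 6 := by
      push_cast
      linarith
    have h2 := Int.le_floor.2 h1
    have h3 : ((k : ℤ) : ℝ) ≤ (⌊Real.sqrt r / 3 * m + (Real.sqrt r - 3) / 6⌋ : ℝ) := by exact_mod_cast h2
    rw [← Int.self_sub_floor] at h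
    push_cast at h3
    linarith
  · have hz : r ∉ ({11, 15} : Finset ℕ) := by
      intro hz
      rw [mem_insert, mem_singleton] at hz
      exact hr1 hz
    obtain ⟨d, hd1, hd2⟩ := hG.1 r m hr hm hcon
    unfold bd gm at h
    simp only [hz, hr1, if_false] at h
    have h1 := fract_le hd1 hd2
    rw [div_one] at h
    linarith

/-- **Several numbers of points at once.** -/
theorem several_points {G : ℕ → ℕ → Prop} (hG : Inputs G) (T : Finset ℕ) (hT : T.Nonempty) (hT10 : ∀ r ∈ T, 10 ≤ r)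
    (hsq : ∀ r ∈ T, ¬ IsSquare r) (hpair : ∀ r ∈ T, ∀ r' ∈ T, r ≠ r' → ¬ IsSquare (r * r')) (K : ℕ) :
    ∃ κ : ℝ, 0 < κ ∧ κ ≤ 1 ∧ ∃ M₀ : ℕ, 2 ≤ M₀ ∧ ∀ M : ℕ, M₀ ≤ M → Sparse κ K M (1 - ∏ r ∈ T, (1 - bd r))
      (fun m => ∀ r : ℕ, (r ∈ T ∨ 37 ≤ r ∨ r = 13 ∨ r = 21 ∨ (10 ≤ r ∧ IsSquare r)) → G r m) := by
  refine several {11, 15} T hT hsq hpair gm bd (fun r hr => bd_nonneg (hT10 r hr)) (fun r hr => (bd_lt (hT10 r hr)).le)
    _ ?_ K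
  intro m hm h r hr
  rcases hr with hr | hr
  · exact good_of hG (hT10 r hr) hm (h r hr)
  · exact hG.2.2 r m hr hm

end Pool.Agent.Q54.FM
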