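import Pool.Agent.Q54.FM.Abs

set_option autoImplicit false

/-!
# All numbers of points at once
-/

namespace Pool.Agent.Q54.FM

open Finset Polynomial Pool.Agent.Q29.Eqd

lemma sqrt_mul_sq (a b : ℕ) : Real.sqrt ((b ^ 2 * a : ℕ) : ℝ) = b * Real.sqrt a := by
  push_cast
  rw [Real.sqrt_mul (by positivity), Real.sqrt_sq (by positivity)]

lemma two_bounds : 1.41421 < Real.sqrt (2 : ℕ) ∧ Real.sqrt (2 : ℕ) < 1.41422 := by
  constructor
  · rw [Real.lt_sqrt (by norm_num)]
    norm_num
  · rw [Real.sqrt_lt' (by norm_num)]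
    norm_num

lemma three_bounds : 1.73205 < Real.sqrt (3 : ℕ) ∧ Real.sqrt (3 : ℕ) < 1.73206 := by
  constructor
  · rw [Real.lt_sqrt (by norm_num)]
    norm_num
  · rw [Real.sqrt_lt' (by norm_num)]
    norm_num

/-- no integer strictly between `F` and `F + 1` -/
lemma no_int {F : ℤ} {d : ℕ} (h1 : (F : ℝ) < d) (h2 : (d : ℝ) < F + 1) : False := by
  have h3 : F < (d : ℤ) := by exact_mod_cast h1
  have h4 : (d : ℤ) < F + 1 := by exact_mod_cast h2
  omega

lemma class_three {G : ℕ → ℕ → Prop} (hG : Inputs G) {m : ℕ} (hm : 0 < m)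
    (h : 0.97 < Int.fract (Real.sqrt (3 : ℕ) * m + 0.819)) : G 12 m ∧ G 27 m := by
  obtain ⟨s, hs⟩ : ∃ s, s = Real.sqrt ((3 : ℕ) : ℝ) := ⟨_, rfl⟩
  obtain ⟨b1, b2⟩ := three_bounds
  rw [← hs] at b1 b2 h
  have hss : s * s = 3 := by
    rw [hs]
    have := Real.mul_self_sqrt (Nat.cast_nonneg (α := ℝ) 3)
    rw [this]
    norm_num
  have hsm : 0 ≤ s * m := by positivity
  obtain ⟨F, hF⟩ : ∃ F : ℤ, F = ⌊s * m + 0.819⌋ := ⟨_, rfl⟩
  have h1 := Int.self_sub_floor (s * m + 0.819)
  have h2 := Int.fract_lt_one (s * m + 0.819)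
  rw [← hF] at h1
  rw [← h1] at h h2
  have e12 : Real.sqrt ((12 : ℕ) : ℝ) = 2 * s := by
    have := sqrt_mul_sq 3 2
    norm_num at this ⊢
    rw [this, hs]
    norm_num
  have e27 : Real.sqrt ((27 : ℕ) : ℝ) = 3 * s := by
    have := sqrt_mul_sq 3 3
    norm_num at this ⊢
    rw [this, hs]
    norm_num
  constructor
  · by_contra hcon
    obtain ⟨d, hd1, hd2⟩ := hG.1 12 m (by norm_num) hm hcon
    have h3 : TH885.NW.loW 12 ≤ Real.sqrt ((12 : ℕ) : ℝ) - 3 := min_le_left _ _
    have h4 : TH885.NW.upW 12 ≤ Real.sqrt ((12 : ℕ) : ℝ) - 3 := min_le_left _ _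
    rw [e12] at hd1 hd2 h3 h4
    refine no_int (F := 2 * F) (d := d) ?_ ?_
    · push_cast
      nlinarith
    · push_cast
      nlinarith
  · by_contra hcon
    obtain ⟨d, hd1, hd2⟩ := hG.1 27 m (by norm_num) hm hcon
    have h3 : TH885.NW.loW 27 ≤ 2 / 3 + 9 / (4 * Real.sqrt ((27 : ℕ) : ℝ)) := min_le_right _ _
    have h4 : TH885.NW.upW 27 ≤ 2 / 3 + 1 / (4 * Real.sqrt ((27 : ℕ) : ℝ)) := min_le_right _ _
    rw [e27] at hd1 hd2 h3 h4
    have h5 : 9 / (4 * (3 * s)) = s / 4 := by
      rw [div_eq_iff (by positivity)]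
      nlinarith
    have h6 : 1 / (4 * (3 * s)) = s / 36 := by
      rw [div_eq_iff (by positivity)]
      nlinarith
    rw [h5] at h3
    rw [h6] at h4
    refine no_int (F := 3 * F + 1) (d := d) ?_ ?_
    · push_cast
      nlinarith
    · push_cast
      nlinarith

lemma class_two {G : ℕ → ℕ → Prop} (hG : Inputs G) {m : ℕ} (hm : 0 < m)
    (h : 0.9971 < Int.fract (Real.sqrt (2 : ℕ) * m + 0.6711)) : G 18 m ∧ G 32 m := by
  obtain ⟨s, hs⟩ : ∃ s, s = Real.sqrt ((2 : ℕ) : ℝ) := ⟨_, rfl⟩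
  obtain ⟨b1, b2⟩ := two_bounds
  rw [← hs] at b1 b2 h
  have hss : s * s = 2 := by
    rw [hs]
    have := Real.mul_self_sqrt (Nat.cast_nonneg (α := ℝ) 2)
    rw [this]
    norm_num
  have hsm : 0 ≤ s * m := by positivity
  obtain ⟨F, hF⟩ : ∃ F : ℤ, F = ⌊s * m + 0.6711⌋ := ⟨_, rfl⟩
  have h1 := Int.self_sub_floor (s * m + 0.6711)
  have h2 := Int.fract_lt_one (s * m + 0.6711)
  rw [← hF] at h1
  rw [← h1] at h h2
  have e18 : Real.sqrt ((18 : ℕ) : ℝ) = 3 * s := by
    have := sqrt_mul_sq 2 3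
    norm_num at this ⊢
    rw [this, hs]
    norm_num
  have e32 : Real.sqrt ((32 : ℕ) : ℝ) = 4 * s := by
    have := sqrt_mul_sq 2 4
    norm_num at this ⊢
    rw [this, hs]
    norm_num
  constructor
  · by_contra hcon
    obtain ⟨d, hd1, hd2⟩ := hG.1 18 m (by norm_num) hm hcon
    have h3 : TH885.NW.loW 18 ≤ 2 / 3 + 9 / (4 * Real.sqrt ((18 : ℕ) : ℝ)) := min_le_right _ _
    have h4 : TH885.NW.upW 18 ≤ 2 / 3 + 1 / (4 * Real.sqrt ((18 : ℕ) : ℝ)) := min_le_right _ _
    rw [e18] at hd1 hd2 h3 h4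
    have h5 : 9 / (4 * (3 * s)) = 3 * s / 8 := by
      rw [div_eq_iff (by positivity)]
      nlinarith
    have h6 : 1 / (4 * (3 * s)) = s / 24 := by
      rw [div_eq_iff (by positivity)]
      nlinarith
    rw [h5] at h3
    rw [h6] at h4
    refine no_int (F := 3 * F + 1) (d := d) ?_ ?_
    · push_cast
      nlinarith
    · push_cast
      nlinarith
  · by_contra hcon
    obtain ⟨d, hd1, hd2⟩ := hG.1 32 m (by norm_num) hm hcon
    have h3 : TH885.NW.loW 32 ≤ 2 / 3 + 9 / (4 * Real.sqrt ((32 : ℕ) : ℝ)) := min_le_right _ _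
    have h4 : TH885.NW.upW 32 ≤ 2 / 3 + 1 / (4 * Real.sqrt ((32 : ℕ) : ℝ)) := min_le_right _ _
    rw [e32] at hd1 hd2 h3 h4
    have h5 : 9 / (4 * (4 * s)) = 9 * s / 32 := by
      rw [div_eq_iff (by positivity)]
      nlinarith
    have h6 : 1 / (4 * (4 * s)) = s / 32 := by
      rw [div_eq_iff (by positivity)]
      nlinarith
    rw [h5] at h3
    rw [h6] at h4
    refine no_int (F := 4 * F + 2) (d := d) ?_ ?_
    · push_cast
      nlinarith
    · push_cast
      nlinarith

/-- the numbers which have to be considered; `12` also represents `27`, and `18` also represents `32` -/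
def T0 : Finset ℕ := {10, 11, 12, 14, 15, 17, 18, 19, 20, 22, 23, 24, 26, 28, 29, 30, 31, 33, 34, 35}

/-- the squarefree parts -/
def sg (r : ℕ) : ℕ :=
  if r = 12 then 3 else if r = 18 then 2 else if r = 20 then 5 else if r = 24 then 6 else if r = 28 then 7 else r

/-- the multipliers -/
def uu (r : ℕ) : ℕ := if r = 11 ∨ r = 15 then 1 else if r = 20 ∨ r = 24 ∨ r = 28 then 6 else 3

/-- the shifts -/
noncomputable def g0 (r : ℕ) : ℝ := if r = 12 then 0.819 else if r = 18 then 0.6711 else gm r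

/-- the lengths -/
noncomputable def l0 (r : ℕ) : ℝ := if r = 12 then 0.97 else if r = 18 then 0.9971 else bd r

lemma T0_ge : ∀ r ∈ T0, 10 ≤ r := by decide

lemma l0_nonneg {r : ℕ} (hr : r ∈ T0) : 0 ≤ l0 r := by
  unfold l0
  split_ifs
  · norm_num
  · norm_num
  · exact bd_nonneg (T0_ge r hr)

lemma l0_lt {r : ℕ} (hr : r ∈ T0) : l0 r < 1 := by
  unfold l0
  split_ifs
  · norm_num
  · norm_num
  · exact bd_lt (T0_ge r hr)

lemma conv_eq {r : ℕ} (h12 : r ≠ 12) (h18 : r ≠ 18) :
    (uu r : ℝ) * Real.sqrt (sg r) / 3 = Real.sqrt r / (if r ∈ ({11, 15} : Finset ℕ) then 3 else 1) := by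
  by_cases h : r = 11 ∨ r = 15
  · rcases h with rfl | rfl <;> simp [uu, sg]
  · have hz : r ∉ ({11, 15} : Finset ℕ) := by
      intro hz
      rw [mem_insert, mem_singleton] at hz
      exact h hz
    rw [if_neg hz, div_one]
    by_cases h2 : r = 20 ∨ r = 24 ∨ r = 28
    · rcases h2 with rfl | rfl | rfl
      · have := sqrt_mul_sq 5 2
        norm_num at this
        simp only [uu, sg]
        norm_num
        rw [this]
        ring
      · have := sqrt_mul_sq 6 2
        norm_num at this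
        simp only [uu, sg]
        norm_num
        rw [this]
        ring
      · have := sqrt_mul_sq 7 2
        norm_num at this
        simp only [uu, sg]
        norm_num
        rw [this]
        ring
    · have hu : uu r = 3 := by
        unfold uu
        rw [if_neg h, if_neg h2]
      have hs : sg r = r := by
        unfold sg
        push Not at h2
        rw [if_neg h12, if_neg h18, if_neg h2.1, if_neg h2.2.1, if_neg h2.2.2]
      rw [hu, hs]
      push_cast
      ring

lemma sf_small {n : ℕ} (h0 : 0 < n) (h1 : n < 49) (h : ∀ x ∈ range 7, x * x ∣ n → x = 1) : Squarefree n := by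
  intro x hx
  rw [Nat.isUnit_iff]
  apply h x _ hx
  rw [mem_range]
  by_contra hcon
  have h2 : 7 ≤ x := by omega
  have h3 := Nat.le_of_dvd h0 hx
  have h4 := Nat.mul_le_mul h2 h2
  omega

lemma sg_sf : ∀ r ∈ T0, Squarefree (sg r) := by
  have h : ∀ r ∈ T0, 0 < sg r ∧ sg r < 49 ∧ ∀ x ∈ range 7, x * x ∣ sg r → x = 1 := by decide
  intro r hr
  obtain ⟨h0, h1, h2⟩ := h r hr
  exact sf_small h0 h1 h2

/-- **All numbers of points at once.** -/
theorem all_points : ∃ c : ℝ, 0 < c ∧ c ≤ 1 ∧ ∀ G : ℕ → ℕ → Prop, Inputs G → ∀ K : ℕ,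
    ∃ κ : ℝ, 0 < κ ∧ κ ≤ 1 ∧ ∃ M₀ : ℕ, 2 ≤ M₀ ∧ ∀ M : ℕ, M₀ ≤ M →
      Sparse κ K M (1 - c) (fun m => ∀ r : ℕ, 10 ≤ r → G r m) := by
  refine ⟨∏ r ∈ T0, (1 - l0 r), prod_pos fun r hr => by linarith [l0_lt hr],
    prod_le_one (fun r hr => by linarith [l0_lt hr]) (fun r hr => by linarith [l0_nonneg hr]), fun G hG K => ?_⟩
  refine seqs_fin T0 ⟨10, by decide⟩ sg uu sg_sf (by decide) (by decide) (by decide) g0 l0
    (fun r hr => l0_nonneg hr) (fun r hr => (l0_lt hr).le) _ ?_ K
  intro m hm h r hr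
  have key : ∀ q ∈ T0, q ≠ 12 → q ≠ 18 → G q m := by
    intro q hq h12 h18
    have h2 := h q hq
    rw [conv_eq h12 h18] at h2
    unfold l0 g0 at h2
    rw [if_neg h12, if_neg h12, if_neg h18, if_neg h18] at h2
    exact good_of hG (T0_ge q hq) hm h2
  have h3 := h 12 (by decide)
  have h4 : G 12 m ∧ G 27 m := by
    apply class_three hG hm
    simp only [l0, g0, uu, sg] at h3
    norm_num at h3 ⊢
    exact h3
  have h5 := h 18 (by decide)
  have h6 : G 18 m ∧ G 32 m := by
    apply class_two hG hm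
    simp only [l0, g0, uu, sg] at h5
    norm_num at h5 ⊢
    exact h5
  rcases Nat.lt_or_ge r 37 with hlt | hge
  · interval_cases r
    · exact key 10 (by decide) (by decide) (by decide)
    · exact key 11 (by decide) (by decide) (by decide)
    · exact h4.1
    · exact hG.2.2 13 m (by norm_num) hm
    · exact key 14 (by decide) (by decide) (by decide)
    · exact key 15 (by decide) (by decide) (by decide)
    · exact hG.2.2 16 m (Or.inr (Or.inr (Or.inr ⟨by norm_num, ⟨4, by norm_num⟩⟩))) hm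
    · exact key 17 (by decide) (by decide) (by decide)
    · exact h6.1
    · exact key 19 (by decide) (by decide) (by decide)
    · exact key 20 (by decide) (by decide) (by decide)
    · exact hG.2.2 21 m (by norm_num) hm
    · exact key 22 (by decide) (by decide) (by decide)
    · exact key 23 (by decide) (by decide) (by decide)
    · exact key 24 (by decide) (by decide) (by decide)
    · exact hG.2.2 25 m (Or.inr (Or.inr (Or.inr ⟨by norm_num, ⟨5, by norm_num⟩⟩))) hm
    · exact key 26 (by decide) (by decide) (by decide)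
    · exact h4.2
    · exact key 28 (by decide) (by decide) (by decide)
    · exact key 29 (by decide) (by decide) (by decide)
    · exact key 30 (by decide) (by decide) (by decide)
    · exact key 31 (by decide) (by decide) (by decide)
    · exact h6.2
    · exact key 33 (by decide) (by decide) (by decide)
    · exact key 34 (by decide) (by decide) (by decide)
    · exact key 35 (by decide) (by decide) (by decide)
    · exact hG.2.2 36 m (Or.inr (Or.inr (Or.inr ⟨by norm_num, ⟨6, by norm_num⟩⟩))) hm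
  · exact hG.2.2 r m (Or.inl hge) hm

end Pool.Agent.Q54.FM
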