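import Pool.Agent.Q54.FM.JointSq

set_option autoImplicit false

/-!
# Boxes, and several irrational numbers at once
-/

namespace Pool.Agent.Q54.FM

open Finset Polynomial Pool.Agent.Q29.Eqd

lemma prod_sub {ι : Type} [DecidableEq ι] (T : Finset ι) (a b : ι → ℝ) (ε : ℝ) (hε : 0 ≤ ε)
    (ha0 : ∀ i, 0 ≤ a i) (ha1 : ∀ i, a i ≤ 1) (hb0 : ∀ i, 0 ≤ b i) (hb1 : ∀ i, b i ≤ 1)
    (hab : ∀ i, a i - ε ≤ b i) : ∏ i ∈ T, a i - T.card * ε ≤ ∏ i ∈ T, b i := by
  induction T using Finset.induction_on with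
  | empty => simp
  | insert i T hi ih =>
    rw [prod_insert hi, prod_insert hi, card_insert_of_notMem hi]
    push_cast
    obtain ⟨A, hA⟩ : ∃ A, A = ∏ i ∈ T, a i := ⟨_, rfl⟩
    obtain ⟨B, hB⟩ : ∃ B, B = ∏ i ∈ T, b i := ⟨_, rfl⟩
    rw [← hA, ← hB] at ih ⊢
    have hB0 : 0 ≤ B := by
      rw [hB]
      exact prod_nonneg fun j _ => hb0 j
    have hB1 : B ≤ 1 := by
      rw [hB]
      exact prod_le_one (fun j _ => hb0 j) fun j _ => hb1 j
    have hk : 0 ≤ (T.card : ℝ) * ε := by positivity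
    have h1 : a i * (A - B) ≤ T.card * ε := by
      rcases le_or_gt (A - B) 0 with h | h
      · exact (mul_nonpos_of_nonneg_of_nonpos (ha0 i) h).trans hk
      · calc a i * (A - B) ≤ 1 * (A - B) := mul_le_mul_of_nonneg_right (ha1 i) h.le
          _ ≤ _ := by linarith
    have h2 : (a i - b i) * B ≤ ε := by
      have h3 : a i - b i ≤ ε := by linarith [hab i]
      rcases le_or_gt (a i - b i) 0 with h | h
      · exact (mul_nonpos_of_nonpos_of_nonneg h hB0).trans hε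
      · calc (a i - b i) * B ≤ (a i - b i) * 1 := mul_le_mul_of_nonneg_left hB1 h.le
          _ ≤ ε := by linarith
    nlinarith

open Classical in
lemma box_lower {s : ℕ} (S : Finset ℕ) (y : ℕ → Fin s → ℝ) (Q E : ℝ) (hE : 0 ≤ E) (h : EquiJ S y Q E) (q : ℕ)
    (hq1 : 1 ≤ q) (hqQ : (q : ℝ) ≤ Q) (L : Fin s → ℝ) (hL0 : ∀ j, 0 ≤ L j) (hL1 : ∀ j, L j ≤ 1) :
    (∏ j, (1 - L j) - s / q) * S.card - (q : ℝ) ^ s * E ≤
      ((S.filter fun n => ∀ j, L j < Int.fract (y n j)).card : ℝ) := by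
  have hq0 : (0 : ℝ) < q := by exact_mod_cast hq1
  obtain ⟨R, hR⟩ : ∃ R : Fin s → Finset ℕ, R = fun j => (range q).filter fun ρ : ℕ => L j < (ρ : ℝ) / q := ⟨_, rfl⟩
  have hRc : ∀ j, (q : ℝ) * (1 - L j) - 1 ≤ (R j).card := by
    intro j
    have hf0 : (0 : ℝ) ≤ q * L j := mul_nonneg hq0.le (hL0 j)
    have h1 : range q \ range (⌊(q : ℝ) * L j⌋₊ + 1) ⊆ R j := by
      intro ρ hρ
      rw [mem_sdiff, mem_range, mem_range, not_lt] at hρ
      rw [hR, mem_filter, mem_range]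
      refine ⟨hρ.1, ?_⟩
      rw [lt_div_iff₀ hq0, mul_comm]
      exact (Nat.lt_floor_add_one _).trans_le (by exact_mod_cast hρ.2)
    have h2 := card_le_card h1
    have h3 : q ≤ (range q \ range (⌊(q : ℝ) * L j⌋₊ + 1)).card + (⌊(q : ℝ) * L j⌋₊ + 1) := by
      have h4 := card_le_card_sdiff_add_card (s := range q) (t := range (⌊(q : ℝ) * L j⌋₊ + 1))
      rw [card_range, card_range] at h4
      exact h4
    have h4 : (q : ℝ) ≤ (R j).card + ((⌊(q : ℝ) * L j⌋₊ : ℝ) + 1) := by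
      have h5 : q ≤ (R j).card + (⌊(q : ℝ) * L j⌋₊ + 1) := by omega
      exact_mod_cast h5
    have h5 := Nat.floor_le hf0
    nlinarith
  have hRq : ∀ j, ((R j).card : ℝ) ≤ q := by
    intro j
    have h1 : (R j).card ≤ q := by
      rw [hR]
      exact (card_filter_le _ _).trans (by rw [card_range])
    exact_mod_cast h1
  obtain ⟨T, hT⟩ : ∃ T : Finset (Fin s → ℕ), T = Fintype.piFinset R := ⟨_, rfl⟩
  have hTc : (T.card : ℝ) = ∏ j, ((R j).card : ℝ) := by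
    rw [hT, Fintype.card_piFinset]
    push_cast
    rfl
  obtain ⟨cell, hcell⟩ : ∃ cell : (Fin s → ℕ) → Finset ℕ, cell = fun ρ => S.filter fun n =>
    ∀ j, ((ρ j : ℕ) : ℝ) / q ≤ Int.fract (y n j) ∧ Int.fract (y n j) < ((ρ j : ℕ) + 1) / q := ⟨_, rfl⟩
  have hsub : T.biUnion cell ⊆ S.filter fun n => ∀ j, L j < Int.fract (y n j) := by
    intro n hn
    rw [mem_biUnion] at hn
    obtain ⟨ρ, hρ, hn⟩ := hn
    rw [hcell, mem_filter] at hn
    rw [hT, Fintype.mem_piFinset] at hρ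
    rw [mem_filter]
    refine ⟨hn.1, fun j => ?_⟩
    have h1 := hρ j
    rw [hR, mem_filter] at h1
    exact h1.2.trans_le (hn.2 j).1
  have hdisj : ∀ ρ ∈ T, ∀ ρ' ∈ T, ρ ≠ ρ' → Disjoint (cell ρ) (cell ρ') := by
    intro ρ _ ρ' _ hne
    rw [Finset.disjoint_left]
    intro n hn hn'
    apply hne
    rw [hcell, mem_filter] at hn hn'
    funext j
    obtain ⟨h1, h2⟩ := hn.2 j
    obtain ⟨h3, h4⟩ := hn'.2 j
    have h5 : ((ρ j : ℕ) : ℝ) < (ρ' j : ℕ) + 1 := by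
      have := h1.trans_lt h4
      rwa [div_lt_div_iff_of_pos_right hq0] at this
    have h6 : ((ρ' j : ℕ) : ℝ) < (ρ j : ℕ) + 1 := by
      have := h3.trans_lt h2
      rwa [div_lt_div_iff_of_pos_right hq0] at this
    have h7 : ρ j < ρ' j + 1 := by exact_mod_cast h5
    have h8 : ρ' j < ρ j + 1 := by exact_mod_cast h6
    omega
  have hcard : ∑ ρ ∈ T, ((cell ρ).card : ℝ) ≤ ((S.filter fun n => ∀ j, L j < Int.fract (y n j)).card : ℝ) := by
    have h1 := card_le_card hsub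
    rw [card_biUnion hdisj] at h1
    exact_mod_cast h1
  have hone : ∀ ρ ∈ T, (S.card : ℝ) / (q : ℝ) ^ s - E ≤ ((cell ρ).card : ℝ) := by
    intro ρ hρ
    have h1 := h q hq1 hqQ (fun j => (ρ j : ℤ)) (by
      intro j
      rw [hT, Fintype.mem_piFinset] at hρ
      have h2 := hρ j
      rw [hR, mem_filter, mem_range] at h2
      exact ⟨by positivity, by exact_mod_cast h2.1⟩)
    have h2 := (abs_le.1 h1).1
    have h3 : (S.filter fun n => ∀ j, (((ρ j : ℕ) : ℤ) : ℝ) / q ≤ Int.fract (y n j) ∧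
        Int.fract (y n j) < ((((ρ j : ℕ) : ℤ) : ℝ) + 1) / q) = cell ρ := by
      rw [hcell]
      ext n
      simp only [mem_filter, Int.cast_natCast]
    rw [h3] at h2
    linarith
  have hsum : (T.card : ℝ) * ((S.card : ℝ) / (q : ℝ) ^ s - E) ≤ ∑ ρ ∈ T, ((cell ρ).card : ℝ) := by
    rw [← nsmul_eq_mul]
    exact card_nsmul_le_sum _ _ _ hone
  have hprod : (∏ j, (1 - L j) - s / q) * (q : ℝ) ^ s ≤ T.card := by
    have h1 := prod_sub (univ : Finset (Fin s)) (fun j => 1 - L j) (fun j => ((R j).card : ℝ) / q) (1 / q)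
      (by positivity) (fun j => by linarith [hL1 j]) (fun j => by linarith [hL0 j]) (fun j => by positivity)
      (fun j => by rw [div_le_one hq0]; exact hRq j) (fun j => by
        rw [le_div_iff₀ hq0, sub_mul, one_div, inv_mul_cancel₀ hq0.ne']
        linarith [hRc j])
    rw [card_univ, Fintype.card_fin] at h1
    have h2 : ∏ j, ((R j).card : ℝ) / q = T.card / (q : ℝ) ^ s := by
      rw [prod_div_distrib, prod_const, card_univ, Fintype.card_fin, hTc]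
    rw [h2, le_div_iff₀ (by positivity)] at h1
    calc (∏ j, (1 - L j) - s / q) * (q : ℝ) ^ s = (∏ j, (1 - L j) - s * (1 / q)) * (q : ℝ) ^ s := by ring
      _ ≤ _ := h1
  have hTq : (T.card : ℝ) ≤ (q : ℝ) ^ s := by
    rw [hTc]
    calc ∏ j, ((R j).card : ℝ) ≤ ∏ _j : Fin s, (q : ℝ) := prod_le_prod (fun j _ => by positivity) fun j _ => hRq j
      _ = _ := by rw [prod_const, card_univ, Fintype.card_fin]
  have hqs : (0 : ℝ) < (q : ℝ) ^ s := by positivity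
  have h1 : (∏ j, (1 - L j) - s / q) * S.card ≤ T.card * ((S.card : ℝ) / (q : ℝ) ^ s) := by
    rw [mul_div_assoc', le_div_iff₀ hqs]
    calc (∏ j, (1 - L j) - s / q) * S.card * (q : ℝ) ^ s = (∏ j, (1 - L j) - s / q) * (q : ℝ) ^ s * S.card := by ring
      _ ≤ _ := mul_le_mul_of_nonneg_right hprod (Nat.cast_nonneg _)
  have h2 : (T.card : ℝ) * E ≤ (q : ℝ) ^ s * E := mul_le_mul_of_nonneg_right hTq hE
  nlinarith

/-- boxes at the scale `M` -/
theorem box_power (s : ℕ) (κ : ℝ) (hκ : 0 < κ) (hκ1 : κ ≤ 1) : ∃ κ' : ℝ, 0 < κ' ∧ κ' ≤ κ ∧ ∃ M₀ : ℕ, 2 ≤ M₀ ∧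
    ∀ M : ℕ, M₀ ≤ M → ∀ (S : Finset ℕ) (y : ℕ → Fin s → ℝ), S.card ≤ M →
    EquiJ S y ((M : ℝ) ^ κ) ((M : ℝ) ^ (1 - κ)) → ∀ L : Fin s → ℝ, (∀ j, 0 ≤ L j) → (∀ j, L j ≤ 1) →
    ∀ U : Finset ℕ, (∀ n ∈ S, (∀ j, L j < Int.fract (y n j)) → n ∉ U) → U ⊆ S →
      (U.card : ℝ) ≤ (1 - ∏ j, (1 - L j)) * S.card + (M : ℝ) ^ (1 - κ') := by
  classical
  obtain ⟨c, hc⟩ : ∃ c : ℝ, c = κ / (2 * (s + 1)) := ⟨_, rfl⟩
  have hs0 : (0 : ℝ) ≤ s := Nat.cast_nonneg s
  have hc0 : 0 < c := by rw [hc]; positivity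
  have hcs : c * s + c = κ / 2 := by
    rw [hc]
    field_simp
  have hcκ : c ≤ κ := by nlinarith [mul_nonneg hc0.le hs0]
  obtain ⟨M₁, hM₁1, hM₁⟩ := ev_rpow (c / 2) (2 * s + 2) (by positivity)
  refine ⟨c / 2, by positivity, by linarith, max M₁ 2, le_max_right _ _, fun M hM S y hSM h L hL0 hL1 U hU hUS => ?_⟩
  have hbig := hM₁ M ((le_max_left _ _).trans hM)
  have hMpos : 1 ≤ M := hM₁1.trans ((le_max_left _ _).trans hM)
  have hM1 : (1 : ℝ) ≤ M := by exact_mod_cast hMpos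
  have hM0 : (0 : ℝ) < M := by linarith
  obtain ⟨Y, hY⟩ : ∃ Y : ℝ, Y = (M : ℝ) ^ c := ⟨_, rfl⟩
  have hY1 : 1 ≤ Y := by
    rw [hY]
    exact Real.one_le_rpow hM1 hc0.le
  obtain ⟨q, hq⟩ : ∃ q : ℕ, q = ⌊Y⌋₊ := ⟨_, rfl⟩
  have hq1 : 1 ≤ q := by
    rw [hq]
    exact Nat.le_floor (by exact_mod_cast hY1)
  have hqY : (q : ℝ) ≤ Y := by
    rw [hq]
    exact Nat.floor_le (by linarith)
  have hqY2 : Y / 2 ≤ q := by
    have h1 := Nat.lt_floor_add_one Y
    rw [← hq] at h1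
    have h2 : (1 : ℝ) ≤ q := by exact_mod_cast hq1
    linarith
  have hq0 : (0 : ℝ) < q := by exact_mod_cast hq1
  have h1 := box_lower S y _ _ (by positivity) h q hq1 (hqY.trans (by
    rw [hY]
    exact Real.rpow_le_rpow_of_exponent_le hM1 hcκ)) L hL0 hL1
  have h2 : U.card + (S.filter fun n => ∀ j, L j < Int.fract (y n j)).card ≤ S.card := by
    rw [← card_union_of_disjoint]
    · apply card_le_card
      intro n hn
      rcases mem_union.1 hn with hn | hn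
      · exact hUS hn
      · exact (mem_filter.1 hn).1
    · rw [Finset.disjoint_left]
      intro n hn hn'
      rw [mem_filter] at hn'
      exact hU n hn'.1 hn'.2 hn
  have h3 : (U.card : ℝ) + ((S.filter fun n => ∀ j, L j < Int.fract (y n j)).card : ℝ) ≤ S.card := by
    exact_mod_cast h2
  have h4 : (s : ℝ) / q * S.card ≤ 2 * s * (M : ℝ) ^ (1 - c) := by
    have e1 : (M : ℝ) ^ (1 - c) * Y = M := by
      rw [hY, ← Real.rpow_add hM0]
      simp
    have h5 : (S.card : ℝ) ≤ M := by exact_mod_cast hSM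
    rw [div_mul_eq_mul_div, div_le_iff₀ hq0]
    calc (s : ℝ) * S.card ≤ s * M := mul_le_mul_of_nonneg_left h5 hs0
      _ = s * ((M : ℝ) ^ (1 - c) * Y) := by rw [e1]
      _ = 2 * s * (M : ℝ) ^ (1 - c) * (Y / 2) := by ring
      _ ≤ 2 * s * (M : ℝ) ^ (1 - c) * q := mul_le_mul_of_nonneg_left hqY2 (by positivity)
  have h5 : (q : ℝ) ^ s * (M : ℝ) ^ (1 - κ) ≤ (M : ℝ) ^ (1 - c) := by
    calc (q : ℝ) ^ s * (M : ℝ) ^ (1 - κ) ≤ Y ^ s * (M : ℝ) ^ (1 - κ) :=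
          mul_le_mul_of_nonneg_right (pow_le_pow_left₀ hq0.le hqY s) (by positivity)
      _ = (M : ℝ) ^ (c * s + (1 - κ)) := by
          rw [hY, ← Real.rpow_natCast, ← Real.rpow_mul hM0.le, ← Real.rpow_add hM0]
      _ ≤ _ := by
          apply Real.rpow_le_rpow_of_exponent_le hM1
          linarith
  have h6 : (2 * s + 1) * (M : ℝ) ^ (1 - c) ≤ (M : ℝ) ^ (1 - c / 2) := by
    have e1 : (M : ℝ) ^ (1 - c / 2) = (M : ℝ) ^ (c / 2) * (M : ℝ) ^ (1 - c) := by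
      rw [← Real.rpow_add hM0]
      congr 1
      ring
    rw [e1]
    apply mul_le_mul_of_nonneg_right _ (by positivity)
    linarith
  have h7 : (∏ j, (1 - L j) - s / q) * S.card = (∏ j, (1 - L j)) * S.card - s / q * S.card := by ring
  rw [h7] at h1
  nlinarith

end Pool.Agent.Q54.FM
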