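import Pool.Agent.Q54.FM.AllR

set_option autoImplicit false

/-!
# Lower densities
-/

namespace Pool.Agent.Q54.FM

open Finset Polynomial Pool.Agent.Q29.Eqd

lemma pi_large (κ C : ℝ) (hκ : 0 < κ) : ∃ M₀ : ℕ, 2 ≤ M₀ ∧ ∀ M : ℕ, M₀ ≤ M →
    C * (M : ℝ) ^ (1 - κ) ≤ (Nat.primeCounting M : ℝ) := by
  -- `log M ≤ M ^ (κ / 2) / (κ / 2)`
  obtain ⟨M₁, hM₁, h1⟩ := ev_rpow (κ / 2) (8 * |C| / κ) (by positivity)
  obtain ⟨M₂, hM₂, h2⟩ := ev_rpow (1 / 2) 8 (by norm_num)
  refine ⟨max (max M₁ M₂) 2, le_max_right _ _, fun M hM => ?_⟩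
  have hM1 := h1 M (((le_max_left _ _).trans (le_max_left _ _)).trans hM)
  have hM2 := h2 M (((le_max_right _ _).trans (le_max_left _ _)).trans hM)
  have h2M : 2 ≤ M := (le_max_right _ _).trans hM
  have hMR : (2 : ℝ) ≤ M := by exact_mod_cast h2M
  have hM0 : (0 : ℝ) < M := by linarith
  have hlog : 0 < Real.log M := Real.log_pos (by linarith)
  have h3 := Chebyshev.pi_ge M
  refine le_trans ?_ h3
  rw [le_div_iff₀ hlog]
  have h4 : Real.log M ≤ (M : ℝ) ^ (κ / 2) / (κ / 2) := Real.log_le_rpow_div hM0.le (by positivity)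
  have h5 : Real.log ((M : ℝ) + 1) ≤ Real.sqrt M * 2 := by
    have h6 : (M : ℝ) + 1 ≤ (Real.sqrt M * 2) ^ 2 := by
      rw [mul_pow, Real.sq_sqrt hM0.le]
      linarith
    have h7 : Real.log ((M : ℝ) + 1) ≤ Real.log ((Real.sqrt M * 2) ^ 2) := Real.log_le_log (by linarith) h6
    have h8 : 0 < Real.sqrt M := Real.sqrt_pos.2 hM0
    rw [Real.log_pow] at h7
    have h9 := Real.log_le_sub_one_of_pos (show 0 < Real.sqrt M from h8)
    have h10 : Real.log (Real.sqrt M * 2) = Real.log (Real.sqrt M) + Real.log 2 :=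
      Real.log_mul h8.ne' (by norm_num)
    have h11 := Real.log_two_lt_d9
    rw [h10] at h7
    push_cast at h7
    linarith
  have hs : Real.sqrt M * 8 ≤ M := by
    rw [← Real.sqrt_eq_rpow] at hM2
    calc Real.sqrt M * 8 ≤ Real.sqrt M * Real.sqrt M := mul_le_mul_of_nonneg_left hM2 (Real.sqrt_nonneg _)
      _ = M := Real.mul_self_sqrt hM0.le
  have h12 := Real.log_two_gt_d9
  have h13 : (M : ℝ) / 4 ≤ M * Real.log 2 - Real.log ((M : ℝ) + 1) := by nlinarith
  refine le_trans ?_ h13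
  have e1 : (M : ℝ) ^ (1 - κ) * ((M : ℝ) ^ (κ / 2) * (M : ℝ) ^ (κ / 2)) = M := by
    rw [← Real.rpow_add hM0, ← Real.rpow_add hM0]
    rw [show 1 - κ + (κ / 2 + κ / 2) = 1 by ring, Real.rpow_one]
  obtain ⟨Y, hY⟩ : ∃ Y, Y = (M : ℝ) ^ (κ / 2) := ⟨_, rfl⟩
  obtain ⟨X, hX⟩ : ∃ X, X = (M : ℝ) ^ (1 - κ) := ⟨_, rfl⟩
  have hX0 : 0 < X := by rw [hX]; positivity
  have hY0 : 0 < Y := by rw [hY]; positivity
  rw [← hY] at e1 hM1 h4
  rw [← hX] at e1 ⊢
  have h14 : |C| * 8 ≤ Y * κ := by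
    rw [div_le_iff₀ hκ] at hM1
    linarith
  calc C * X * Real.log M ≤ |C| * X * Real.log M := by
        apply mul_le_mul_of_nonneg_right _ hlog.le
        exact mul_le_mul_of_nonneg_right (le_abs_self C) hX0.le
    _ ≤ |C| * X * (Y / (κ / 2)) := mul_le_mul_of_nonneg_left h4 (by positivity)
    _ = X * Y * (|C| * 8) / κ / 4 := by
        field_simp
        ring
    _ ≤ X * Y * (Y * κ) / κ / 4 := by
        gcongr
    _ = M / 4 := by
        rw [← e1]
        field_simp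

/-- lower densities of the good multiplicities -/
theorem density_of_sparse {c : ℝ} (hc : 0 < c) (P : ℕ → Prop)
    (h : ∃ κ : ℝ, 0 < κ ∧ κ ≤ 1 ∧ ∃ M₀ : ℕ, 2 ≤ M₀ ∧ ∀ M : ℕ, M₀ ≤ M → Sparse κ 1 M (1 - c) P) :
    (∃ M₁ : ℕ, ∀ M : ℕ, M₁ ≤ M → c / 2 * M ≤ ({m : ℕ | m < M ∧ 0 < m ∧ P m}.ncard : ℝ)) ∧
    (∃ M₁ : ℕ, ∀ M : ℕ, M₁ ≤ M → c / 2 * (Nat.primeCounting M : ℝ) ≤ ({p : ℕ | p ≤ M ∧ p.Prime ∧ P p}.ncard : ℝ)) := by
  classical
  obtain ⟨κ, hκ, hκ1, M₀, hM₀, h⟩ := h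
  constructor
  · obtain ⟨M₁, hM₁, h1⟩ := ev_rpow κ (4 / c) hκ
    obtain ⟨M₂, hM₂, h2⟩ := ev_rpow 1 (4 / c) one_pos
    refine ⟨max M₀ (max M₁ M₂), fun M hM => ?_⟩
    have hMM0 : M₀ ≤ M := (le_max_left _ _).trans hM
    have hb1 := h1 M (((le_max_left _ _).trans (le_max_right _ _)).trans hM)
    have hb2 := h2 M (((le_max_right _ _).trans (le_max_right _ _)).trans hM)
    have h2M : 2 ≤ M := hM₀.trans hMM0
    have hMR : (2 : ℝ) ≤ M := by exact_mod_cast h2M
    have hM0 : (0 : ℝ) < M := by linarith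
    have h3 := (h M hMM0).1 X (by rw [natDegree_X]) (by rw [natDegree_X]) (by
      rw [leadingCoeff_X]
      simp only [Int.cast_one, abs_one]
      exact Real.one_le_rpow (by linarith) hκ.le)
    have hs : {n : ℕ | n < M ∧ 0 < (X : ℤ[X]).eval (n : ℤ) ∧ ¬ P ((X : ℤ[X]).eval (n : ℤ)).toNat} =
        ↑((range M).filter fun n : ℕ => 0 < n ∧ ¬ P n) := by
      ext n
      simp only [Set.mem_ofPred_eq, coe_filter, mem_range, eval_X, Int.toNat_natCast, Nat.cast_pos]
    have hs' : {m : ℕ | m < M ∧ 0 < m ∧ P m} = ↑((range M).filter fun n : ℕ => 0 < n ∧ P n) := by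
      ext n
      simp only [Set.mem_ofPred_eq, coe_filter, mem_range]
    rw [hs, Set.ncard_coe_finset] at h3
    rw [hs', Set.ncard_coe_finset]
    have h4 : M ≤ ((range M).filter fun n : ℕ => 0 < n ∧ ¬ P n).card +
        ((range M).filter fun n : ℕ => 0 < n ∧ P n).card + 1 := by
      have h5 : range M ⊆ (((range M).filter fun n : ℕ => 0 < n ∧ ¬ P n) ∪
          ((range M).filter fun n : ℕ => 0 < n ∧ P n)) ∪ {0} := by
        intro n hn
        rw [mem_union, mem_union, mem_filter, mem_filter, mem_singleton]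
        rcases Nat.eq_zero_or_pos n with h0 | h0
        · exact Or.inr h0
        · left
          by_cases hp : P n
          · exact Or.inr ⟨hn, h0, hp⟩
          · exact Or.inl ⟨hn, h0, hp⟩
      have h6 := card_le_card h5
      rw [card_range] at h6
      refine h6.trans ?_
      refine (card_union_le _ _).trans ?_
      rw [card_singleton]
      exact Nat.add_le_add_right (card_union_le _ _) 1
    have h5 : (M : ℝ) ≤ (((range M).filter fun n : ℕ => 0 < n ∧ ¬ P n).card : ℝ) +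
        ((range M).filter fun n : ℕ => 0 < n ∧ P n).card + 1 := by exact_mod_cast h4
    have e1 : (M : ℝ) ^ (1 - κ) * (M : ℝ) ^ κ = M := by
      rw [← Real.rpow_add hM0]
      simp
    have h6 : (M : ℝ) ^ (1 - κ) ≤ c / 4 * M := by
      have h7 : (M : ℝ) ^ (1 - κ) * (4 / c) ≤ M := by
        calc (M : ℝ) ^ (1 - κ) * (4 / c) ≤ (M : ℝ) ^ (1 - κ) * (M : ℝ) ^ κ :=
              mul_le_mul_of_nonneg_left hb1 (by positivity)
          _ = M := e1
      have h8 : (M : ℝ) ^ (1 - κ) * 4 ≤ M * c := by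
        rw [← mul_div_assoc, div_le_iff₀ hc] at h7
        exact h7
      linarith
    rw [Real.rpow_one, div_le_iff₀ hc] at hb2
    linarith
  · obtain ⟨M₁, hM₁, h1⟩ := pi_large κ (2 / c) hκ
    refine ⟨max M₀ M₁, fun M hM => ?_⟩
    have hMM0 : M₀ ≤ M := (le_max_left _ _).trans hM
    have hb1 := h1 M ((le_max_right _ _).trans hM)
    have h2M : 2 ≤ M := hM₀.trans hMM0
    have hMR : (2 : ℝ) ≤ M := by exact_mod_cast h2M
    have hM0 : (0 : ℝ) < M := by linarith
    have hone : (1 : ℝ) ≤ (M : ℝ) ^ κ := Real.one_le_rpow (by linarith) hκ.le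
    have h3 := (h M hMM0).2 1 0 one_ne_zero (by simpa using hone) 1 0 le_rfl (by simpa using hone)
    have hs : {p : ℕ | p ≤ M ∧ p.Prime ∧ p ≡ 0 [MOD 1] ∧ 0 < 1 * (p : ℤ) + 0 ∧ ¬ P (1 * (p : ℤ) + 0).toNat} =
        ↑((range (M + 1)).filter fun p : ℕ => p.Prime ∧ ¬ P p) := by
      ext p
      simp only [Set.mem_ofPred_eq, coe_filter, mem_range, one_mul, add_zero, Int.toNat_natCast, Nat.cast_pos]
      constructor
      · rintro ⟨h4, h5, _, _, h6⟩
        exact ⟨by omega, h5, h6⟩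
      · rintro ⟨h4, h5, h6⟩
        exact ⟨by omega, h5, Nat.modEq_one, h5.pos, h6⟩
    have hs1 : {p : ℕ | p ≤ M ∧ p.Prime ∧ p ≡ 0 [MOD 1]} = ↑((range (M + 1)).filter fun p : ℕ => p.Prime) := by
      ext p
      simp only [Set.mem_ofPred_eq, coe_filter, mem_range]
      constructor
      · rintro ⟨h4, h5, _⟩
        exact ⟨by omega, h5⟩
      · rintro ⟨h4, h5⟩
        exact ⟨by omega, h5, Nat.modEq_one⟩
    have hs' : {p : ℕ | p ≤ M ∧ p.Prime ∧ P p} = ↑((range (M + 1)).filter fun p : ℕ => p.Prime ∧ P p) := by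
      ext p
      simp only [Set.mem_ofPred_eq, coe_filter, mem_range]
      constructor
      · rintro ⟨h4, h5⟩
        exact ⟨by omega, h5⟩
      · rintro ⟨h4, h5⟩
        exact ⟨by omega, h5⟩
    rw [hs, hs1, Set.ncard_coe_finset, Set.ncard_coe_finset] at h3
    rw [hs', Set.ncard_coe_finset]
    have hpi : ((range (M + 1)).filter fun p : ℕ => p.Prime).card = Nat.primeCounting M := by
      rw [Nat.primeCounting, Nat.primeCounting', Nat.count_eq_card_filter_range]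
    rw [hpi] at h3
    have h4 : Nat.primeCounting M ≤ ((range (M + 1)).filter fun p : ℕ => p.Prime ∧ ¬ P p).card +
        ((range (M + 1)).filter fun p : ℕ => p.Prime ∧ P p).card := by
      rw [← hpi]
      have h5 : ((range (M + 1)).filter fun p : ℕ => p.Prime) ⊆
          ((range (M + 1)).filter fun p : ℕ => p.Prime ∧ ¬ P p) ∪
          ((range (M + 1)).filter fun p : ℕ => p.Prime ∧ P p) := by
        intro p hp
        rw [mem_filter] at hp
        rw [mem_union, mem_filter, mem_filter]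
        by_cases hq : P p
        · exact Or.inr ⟨hp.1, hp.2, hq⟩
        · exact Or.inl ⟨hp.1, hp.2, hq⟩
      exact (card_le_card h5).trans (card_union_le _ _)
    have h5 : (Nat.primeCounting M : ℝ) ≤ (((range (M + 1)).filter fun p : ℕ => p.Prime ∧ ¬ P p).card : ℝ) +
        ((range (M + 1)).filter fun p : ℕ => p.Prime ∧ P p).card := by exact_mod_cast h4
    have h6 : (M : ℝ) ^ (1 - κ) ≤ c / 2 * Nat.primeCounting M := by
      have h7 : (M : ℝ) ^ (1 - κ) * 2 ≤ Nat.primeCounting M * c := by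
        rw [div_mul_eq_mul_div, div_le_iff₀ hc] at hb1
        linarith
      linarith
    linarith

end Pool.Agent.Q54.FM
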