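import Pool.Agent.Q54.FM.AllR
import Pool.Agent.TH760.EN.Asm
import Pool.Agent.TH864.SX.Final13
import Pool.Agent.TH864.SX.Eleven
import Pool.Agent.TH469.SX.TwentyOne
import Pool.Agent.TH469.SX.Fifteen
import Pool.Agent.H932R3.NearFinal
import Pool.Agent.TH603.Sur.Uni

set_option autoImplicit false

/-!
# The expected dimension in all degrees for several numbers of points
-/

namespace Pool.Agent.Q54.FM

open Finset

/-- the expected dimension in all degrees at `r` general points of multiplicity `m` -/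
def Gd (r m : ℕ) : Prop :=
  ∃ F : MvPolynomial (Fin r × Fin 2) ℚ, F ≠ 0 ∧ ∀ P : Fin r → Fin 2 → ℂ,
    MvPolynomial.aeval (fun ij : Fin r × Fin 2 => P ij.1 ij.2) F ≠ 0 →
    ∀ d : ℕ, H932R3.ExpDim ℂ (fun _ => m) P d

lemma Inputs.mono {G G' : ℕ → ℕ → Prop} (hG : Inputs G) (h : ∀ r m : ℕ, 10 ≤ r → 0 < m → G r m → G' r m) :
    Inputs G' := by
  refine ⟨fun r m hr hm hn => hG.1 r m hr hm fun hg => hn (h r m hr hm hg),
    fun r m hr hm hn => hG.2.1 r m hr hm fun hg => hn (h r m (by omega) hm hg), fun r m hr hm => ?_⟩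
  refine h r m ?_ hm (hG.2.2 r m hr hm)
  rcases hr with hr | hr | hr | hr
  · omega
  · omega
  · omega
  · exact hr.1

theorem near_square {s m : ℕ} (hs : 10 ≤ s * s) (hm : 1 ≤ m) : Gd (s * s) m := by
  have hs2 : 2 ≤ s := by
    by_contra hcon
    have : s ≤ 1 := by omega
    have := Nat.mul_le_mul this this
    omega
  exact H932R3.near_points (L := ℂ) (w := fun _ => m) hs hm (fun _ => Or.inl rfl)
    (H932R3.near_cond (by omega) (fun _ => Or.inl rfl)
      (Or.inr ⟨s, 0, hs2, by ring, Or.inl rfl⟩))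

theorem all_of {r m : ℕ} (hm : 1 ≤ m)
    (hr : 37 ≤ r ∨ r = 13 ∨ r = 21 ∨ (10 ≤ r ∧ IsSquare r)) : Gd r m := by
  rcases hr with hr | rfl | rfl | ⟨hr, s, rfl⟩
  · obtain ⟨F, hF, hF'⟩ := TH760.EN.expDim37 (L := ℂ) hr hm
    exact ⟨F, hF, fun P hP d => hF' P hP d⟩
  · obtain ⟨F, hF, hF'⟩ := TH864.SX.uniform13 m
    exact ⟨F, hF, fun P hP d => hF' P hP d⟩
  · obtain ⟨F, hF, hF'⟩ := TH469.SX.twentyone m
    exact ⟨F, hF, fun P hP d => hF' P hP d⟩
  · exact near_square hr hm

theorem inputs : Inputs Gd := by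
  refine ⟨fun r m hr hm hbad => ?_, fun r m hr hm hbad => ?_, fun r m hr hm => all_of hm hr⟩
  · by_contra hcon
    push Not at hcon
    apply hbad
    obtain ⟨F, hF, hF'⟩ := TH885.NW.exp_uni2 (L := ℂ) hr hm
    refine ⟨F, hF, fun P hP d => hF' P hP d ?_⟩
    rcases le_or_gt (-TH885.NW.loW r) (2 * (d : ℝ) + 3 - Real.sqrt r * (2 * m + 1)) with h4 | h4
    · exact Or.inl (hcon d h4)
    · exact Or.inr h4
  · by_contra hcon
    push Not at hcon
    apply hbad
    have key : ∀ d : ℕ, ¬ 3 ∣ d ∨ (d : ℝ) < Real.sqrt r * m ∨ Real.sqrt r * (2 * m + 1) ≤ 2 * d + 3 := by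
      intro d
      by_cases h3 : 3 ∣ d
      · obtain ⟨k, rfl⟩ := h3
        rcases lt_or_ge ((3 * k : ℕ) : ℝ) (Real.sqrt r * m) with h | h
        · exact Or.inr (Or.inl h)
        · right
          right
          push_cast at h ⊢
          have := hcon k h
          linarith
      · exact Or.inl h3
    rcases hr with rfl | rfl
    · obtain ⟨F, hF, hF'⟩ := TH864.SX.uniform11 m
      refine ⟨F, hF, fun P hP d => hF' P hP d ?_⟩
      have := key d
      push_cast at this
      exact this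
    · obtain ⟨F, hF, hF'⟩ := TH469.SX.fifteen m
      refine ⟨F, hF, fun P hP d => hF' P hP d ?_⟩
      have := key d
      push_cast at this
      exact this

end Pool.Agent.Q54.FM
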