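import Pool.Agent.Q54.FM.DegSide
import Pool.Agent.Q54.FM.Inp

set_option autoImplicit false

/-!
# Degrees without exceptions: the inputs, several numbers of points, densities
-/

namespace Pool.Agent.Q54.FM

open Finset Polynomial Pool.Agent.Q29.Eqd

/-- the expected dimension in degree `d` at `r` general points of multiplicity `m` -/
def ED (r m d : ℕ) : Prop :=
  ∃ F : MvPolynomial (Fin r × Fin 2) ℚ, F ≠ 0 ∧ ∀ P : Fin r → Fin 2 → ℂ,
    MvPolynomial.aeval (fun ij : Fin r × Fin 2 => P ij.1 ij.2) F ≠ 0 → H932R3.ExpDim ℂ (fun _ => m) P d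

lemma DInputs.mono {D D' : ℕ → ℕ → Prop} (hD : DInputs D) (h : ∀ r d : ℕ, 10 ≤ r → 0 < d → D r d → D' r d) :
    DInputs D' := by
  refine ⟨fun r d hr hd hn => hD.1 r d hr hd fun hg => hn (h r d hr hd hg), fun r d hr hd => ?_⟩
  refine h r d ?_ hd (hD.2 r d hr hd)
  rcases hr with hr | hr | hr | hr
  · omega
  · omega
  · omega
  · exact hr.1

theorem dinputs : DInputs fun r d => ∀ m : ℕ, 1 ≤ m → ED r m d := by
  refine ⟨fun r d hr hd hbad => ?_, fun r d hr hd m hm => ?_⟩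
  · push Not at hbad
    obtain ⟨m, hm, hbad⟩ := hbad
    refine ⟨m, ?_⟩
    by_contra hcon
    apply hbad
    obtain ⟨F, hF, hF'⟩ := TH885.NW.exp_uni2 (L := ℂ) hr hm
    refine ⟨F, hF, fun P hP => hF' P hP d ?_⟩
    rcases le_or_gt (-TH885.NW.loW r) (2 * (d : ℝ) + 3 - Real.sqrt r * (2 * m + 1)) with h | h
    · left
      by_contra h2
      push Not at h2
      exact hcon ⟨h, h2⟩
    · exact Or.inr h
  · obtain ⟨F, hF, hF'⟩ := all_of hm hr
    exact ⟨F, hF, fun P hP => hF' P hP d⟩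

/-- Several numbers of points, windows of any length. -/
theorem deg_several (D : ℕ → ℕ → Prop) (T : Finset ℕ) (hT : T.Nonempty) (hsq : ∀ r ∈ T, ¬ IsSquare r)
    (hpair : ∀ r ∈ T, ∀ r' ∈ T, r ≠ r' → ¬ IsSquare (r * r')) (A B : ℕ → ℝ)
    (hAB : ∀ r ∈ T, 0 ≤ A r + B r ∧ (A r + B r) / (2 * Real.sqrt r) ≤ 1)
    (H : ∀ r ∈ T, ∀ d : ℕ, 0 < d → ¬ D r d → ∃ m : ℕ,
      -A r ≤ 2 * (d : ℝ) + 3 - Real.sqrt r * (2 * m + 1) ∧ 2 * (d : ℝ) + 3 - Real.sqrt r * (2 * m + 1) ≤ B r)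
    (P : ℕ → Prop) (hP : ∀ d : ℕ, 0 < d → (∀ r ∈ T, D r d) → P d) (K : ℕ) :
    ∃ κ : ℝ, 0 < κ ∧ κ ≤ 1 ∧ ∃ M₀ : ℕ, 2 ≤ M₀ ∧ ∀ M : ℕ, M₀ ≤ M →
      Sparse κ K M (1 - ∏ r ∈ T, (1 - (A r + B r) / (2 * Real.sqrt r))) P := by
  refine several_inv T hT hsq hpair (fun r => (3 + A r) / (2 * Real.sqrt r) - 1 / 2)
    (fun r => (A r + B r) / (2 * Real.sqrt r)) (fun r hr => ?_) (fun r hr => (hAB r hr).2) P ?_ K
  · exact div_nonneg (hAB r hr).1 (by positivity)
  · intro d hd h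
    apply hP d hd
    intro r hr
    have h0 := h r hr
    by_contra hcon
    obtain ⟨m, hm1, hm2⟩ := H r hr d hd hcon
    have hr0 : r ≠ 0 := by
      rintro rfl
      exact hsq 0 hr ⟨0, rfl⟩
    have hs : 0 < Real.sqrt r := Real.sqrt_pos.2 (by exact_mod_cast Nat.pos_of_ne_zero hr0)
    have h1 := fract_deg hs hm1 hm2
    linarith

/-- densities, any smaller constant -/
theorem density_of_sparse' {c c' : ℝ} (hc : c' < c) (P : ℕ → Prop)
    (h : ∃ κ : ℝ, 0 < κ ∧ κ ≤ 1 ∧ ∃ M₀ : ℕ, 2 ≤ M₀ ∧ ∀ M : ℕ, M₀ ≤ M → Sparse κ 1 M (1 - c) P) :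
    (∃ M₁ : ℕ, ∀ M : ℕ, M₁ ≤ M → c' * M ≤ ({m : ℕ | m < M ∧ 0 < m ∧ P m}.ncard : ℝ)) ∧
    (∃ M₁ : ℕ, ∀ M : ℕ, M₁ ≤ M → c' * (Nat.primeCounting M : ℝ) ≤ ({p : ℕ | p ≤ M ∧ p.Prime ∧ P p}.ncard : ℝ)) := by
  classical
  obtain ⟨κ, hκ, hκ1, M₀, hM₀, h⟩ := h
  obtain ⟨δ, hδ⟩ : ∃ δ, δ = c - c' := ⟨_, rfl⟩
  have hδ0 : 0 < δ := by linarith
  constructor
  · obtain ⟨M₁, hM₁, h1⟩ := ev_rpow κ (2 / δ) hκ
    obtain ⟨M₂, hM₂, h2⟩ := ev_rpow 1 (2 / δ) one_pos
    refine ⟨max M₀ (max M₁ M₂), fun M hM => ?_⟩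
    have hMM0 : M₀ ≤ M := (le_max_left _ _).trans hM
    have hb1 := h1 M (((le_max_left _ _).trans (le_max_right _ _)).trans hM)
    have hb2 := h2 M (((le_max_right _ _).trans (le_max_right _ _)).trans hM)
    have h2M : 2 ≤ M := hM₀.trans hMM0
    have hMR : (2 : ℝ) ≤ M := by exact_mod_cast h2M
    have hM0 : (0 : ℝ) < M := by linarith
    have h3 := (h M hMM0).1 X (by rw [natDegree_X]) (by rw [natDegree_X]) (by
      rw [leadingCoeff_X]
      simp only [Int.cast_one, abs_one]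
      exact Real.one_le_rpow (by linarith) hκ.le)
    have hs : {n : ℕ | n < M ∧ 0 < (X : ℤ[X]).eval (n : ℤ) ∧ ¬ P ((X : ℤ[X]).eval (n : ℤ)).toNat} =
        ↑((range M).filter fun n : ℕ => 0 < n ∧ ¬ P n) := by
      ext n
      simp only [Set.mem_ofPred_eq, coe_filter, mem_range, eval_X, Int.toNat_natCast, Nat.cast_pos]
    have hs' : {m : ℕ | m < M ∧ 0 < m ∧ P m} = ↑((range M).filter fun n : ℕ => 0 < n ∧ P n) := by
      ext n
      simp only [Set.mem_ofPred_eq, coe_filter, mem_range]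
    rw [hs, Set.ncard_coe_finset] at h3
    rw [hs', Set.ncard_coe_finset]
    have h4 : M ≤ ((range M).filter fun n : ℕ => 0 < n ∧ ¬ P n).card +
        ((range M).filter fun n : ℕ => 0 < n ∧ P n).card + 1 := by
      have h5 : range M ⊆ (((range M).filter fun n : ℕ => 0 < n ∧ ¬ P n) ∪
          ((range M).filter fun n : ℕ => 0 < n ∧ P n)) ∪ {0} := by
        intro n hn
        rw [mem_union, mem_union, mem_filter, mem_filter, mem_singleton]
        rcases Nat.eq_zero_or_pos n with h0 | h0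
        · exact Or.inr h0
        · left
          by_cases hp : P n
          · exact Or.inr ⟨hn, h0, hp⟩
          · exact Or.inl ⟨hn, h0, hp⟩
      have h6 := card_le_card h5
      rw [card_range] at h6
      refine h6.trans ?_
      refine (card_union_le _ _).trans ?_
      rw [card_singleton]
      exact Nat.add_le_add_right (card_union_le _ _) 1
    have h5 : (M : ℝ) ≤ (((range M).filter fun n : ℕ => 0 < n ∧ ¬ P n).card : ℝ) +
        ((range M).filter fun n : ℕ => 0 < n ∧ P n).card + 1 := by exact_mod_cast h4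
    have e1 : (M : ℝ) ^ (1 - κ) * (M : ℝ) ^ κ = M := by
      rw [← Real.rpow_add hM0]
      simp
    have h6 : (M : ℝ) ^ (1 - κ) ≤ δ / 2 * M := by
      have h7 : (M : ℝ) ^ (1 - κ) * (2 / δ) ≤ M := by
        calc (M : ℝ) ^ (1 - κ) * (2 / δ) ≤ (M : ℝ) ^ (1 - κ) * (M : ℝ) ^ κ :=
              mul_le_mul_of_nonneg_left hb1 (by positivity)
          _ = M := e1
      have h8 : (M : ℝ) ^ (1 - κ) * 2 ≤ M * δ := by
        rw [← mul_div_assoc, div_le_iff₀ hδ0] at h7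
        exact h7
      linarith
    rw [Real.rpow_one, div_le_iff₀ hδ0] at hb2
    have h9 : δ * M = c * M - c' * M := by rw [hδ]; ring
    nlinarith
  · obtain ⟨M₁, hM₁, h1⟩ := pi_large κ (1 / δ) hκ
    refine ⟨max M₀ M₁, fun M hM => ?_⟩
    have hMM0 : M₀ ≤ M := (le_max_left _ _).trans hM
    have hb1 := h1 M ((le_max_right _ _).trans hM)
    have h2M : 2 ≤ M := hM₀.trans hMM0
    have hMR : (2 : ℝ) ≤ M := by exact_mod_cast h2M
    have hM0 : (0 : ℝ) < M := by linarith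
    have hone : (1 : ℝ) ≤ (M : ℝ) ^ κ := Real.one_le_rpow (by linarith) hκ.le
    have h3 := (h M hMM0).2 1 0 one_ne_zero (by simpa using hone) 1 0 le_rfl (by simpa using hone)
    have hs : {p : ℕ | p ≤ M ∧ p.Prime ∧ p ≡ 0 [MOD 1] ∧ 0 < 1 * (p : ℤ) + 0 ∧ ¬ P (1 * (p : ℤ) + 0).toNat} =
        ↑((range (M + 1)).filter fun p : ℕ => p.Prime ∧ ¬ P p) := by
      ext p
      simp only [Set.mem_ofPred_eq, coe_filter, mem_range, one_mul, add_zero, Int.toNat_natCast, Nat.cast_pos]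
      constructor
      · rintro ⟨h4, h5, _, _, h6⟩
        exact ⟨by omega, h5, h6⟩
      · rintro ⟨h4, h5, h6⟩
        exact ⟨by omega, h5, Nat.modEq_one, h5.pos, h6⟩
    have hs1 : {p : ℕ | p ≤ M ∧ p.Prime ∧ p ≡ 0 [MOD 1]} = ↑((range (M + 1)).filter fun p : ℕ => p.Prime) := by
      ext p
      simp only [Set.mem_ofPred_eq, coe_filter, mem_range]
      constructor
      · rintro ⟨h4, h5, _⟩
        exact ⟨by omega, h5⟩
      · rintro ⟨h4, h5⟩
        exact ⟨by omega, h5, Nat.modEq_one⟩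
    have hs' : {p : ℕ | p ≤ M ∧ p.Prime ∧ P p} = ↑((range (M + 1)).filter fun p : ℕ => p.Prime ∧ P p) := by
      ext p
      simp only [Set.mem_ofPred_eq, coe_filter, mem_range]
      constructor
      · rintro ⟨h4, h5⟩
        exact ⟨by omega, h5⟩
      · rintro ⟨h4, h5⟩
        exact ⟨by omega, h5⟩
    rw [hs, hs1, Set.ncard_coe_finset, Set.ncard_coe_finset] at h3
    rw [hs', Set.ncard_coe_finset]
    have hpi : ((range (M + 1)).filter fun p : ℕ => p.Prime).card = Nat.primeCounting M := by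
      rw [Nat.primeCounting, Nat.primeCounting', Nat.count_eq_card_filter_range]
    rw [hpi] at h3
    have h4 : Nat.primeCounting M ≤ ((range (M + 1)).filter fun p : ℕ => p.Prime ∧ ¬ P p).card +
        ((range (M + 1)).filter fun p : ℕ => p.Prime ∧ P p).card := by
      rw [← hpi]
      have h5 : ((range (M + 1)).filter fun p : ℕ => p.Prime) ⊆
          ((range (M + 1)).filter fun p : ℕ => p.Prime ∧ ¬ P p) ∪
          ((range (M + 1)).filter fun p : ℕ => p.Prime ∧ P p) := by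
        intro p hp
        rw [mem_filter] at hp
        rw [mem_union, mem_filter, mem_filter]
        by_cases hq : P p
        · exact Or.inr ⟨hp.1, hp.2, hq⟩
        · exact Or.inl ⟨hp.1, hp.2, hq⟩
      exact (card_le_card h5).trans (card_union_le _ _)
    have h5 : (Nat.primeCounting M : ℝ) ≤ (((range (M + 1)).filter fun p : ℕ => p.Prime ∧ ¬ P p).card : ℝ) +
        ((range (M + 1)).filter fun p : ℕ => p.Prime ∧ P p).card := by exact_mod_cast h4
    have h6 : (M : ℝ) ^ (1 - κ) ≤ δ * Nat.primeCounting M := by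
      rw [div_mul_eq_mul_div, div_le_iff₀ hδ0] at hb1
      linarith
    have h9 : δ * (Nat.primeCounting M : ℝ) = c * Nat.primeCounting M - c' * Nat.primeCounting M := by rw [hδ]; ring
    linarith

end Pool.Agent.Q54.FM
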