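import Pool.Agent.Q54.FM.Near
import Pool.Agent.Q54.FM.AllR
import Pool.Agent.Q54.FM.Cor

set_option autoImplicit false

/-!
# Degrees in which everything is as expected, for all numbers of points and all multiplicities
-/

namespace Pool.Agent.Q54.FM

open Finset Polynomial Pool.Agent.Q29.Eqd

/-- What is known on the degrees `d` in which `D r d` holds. -/
def DInputs (D : ℕ → ℕ → Prop) : Prop :=
  (∀ r d : ℕ, 10 ≤ r → 0 < d → ¬ D r d → ∃ m : ℕ,
    -TH885.NW.loW r ≤ 2 * (d : ℝ) + 3 - Real.sqrt r * (2 * m + 1) ∧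
    2 * (d : ℝ) + 3 - Real.sqrt r * (2 * m + 1) ≤ TH885.NW.upW r) ∧
  (∀ r d : ℕ, 37 ≤ r ∨ r = 13 ∨ r = 21 ∨ (10 ≤ r ∧ IsSquare r) → 0 < d → D r d)

lemma fract_deg {lo up s : ℝ} (hs : 0 < s) {m d : ℕ} (h1 : -lo ≤ 2 * (d : ℝ) + 3 - s * (2 * m + 1))
    (h2 : 2 * (d : ℝ) + 3 - s * (2 * m + 1) ≤ up) :
    Int.fract ((d : ℝ) / s + ((3 + lo) / (2 * s) - 1 / 2)) ≤ (lo + up) / (2 * s) := by
  have hY : (d : ℝ) / s + ((3 + lo) / (2 * s) - 1 / 2) = (2 * d + 3 + lo) / (2 * s) - 1 / 2 := by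
    field_simp
    ring
  have h3 : ((m : ℤ) : ℝ) ≤ (2 * (d : ℝ) + 3 + lo) / (2 * s) - 1 / 2 := by
    rw [le_sub_iff_add_le, le_div_iff₀ (by positivity)]
    push_cast
    nlinarith
  have h4 := Int.le_floor.2 h3
  have h5 : ((m : ℤ) : ℝ) ≤ (⌊(2 * (d : ℝ) + 3 + lo) / (2 * s) - 1 / 2⌋ : ℝ) := by exact_mod_cast h4
  have h6 : (2 * (d : ℝ) + 3 + lo) / (2 * s) - 1 / 2 - m ≤ (lo + up) / (2 * s) := by
    have h7 : (2 * (d : ℝ) + 3 + lo) / (2 * s) - 1 / 2 - m = (2 * (d : ℝ) + 3 + lo - s * (2 * m + 1)) / (2 * s) := by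
      field_simp
      ring
    rw [h7]
    exact div_le_div_of_nonneg_right (by linarith) (by positivity)
  rw [hY, ← Int.self_sub_floor]
  push_cast at h5
  linarith

lemma dclass_three {D : ℕ → ℕ → Prop} (hD : DInputs D) {d : ℕ} (hd : 0 < d)
    (h : 0.7114 < Int.fract ((d : ℝ) / Real.sqrt (108 : ℕ) + 0)) : D 12 d ∧ D 27 d := by
  obtain ⟨s, hs⟩ : ∃ s, s = Real.sqrt ((3 : ℕ) : ℝ) := ⟨_, rfl⟩
  obtain ⟨b1, b2⟩ := three_bounds
  rw [← hs] at b1 b2
  have hs0 : 0 < s := by linarith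
  have hss : s * s = 3 := by
    rw [hs]
    have := Real.mul_self_sqrt (Nat.cast_nonneg (α := ℝ) 3)
    rw [this]
    norm_num
  have e108 : Real.sqrt ((108 : ℕ) : ℝ) = 6 * s := by
    have := sqrt_mul_sq 3 6
    norm_num at this ⊢
    rw [this, hs]
    norm_num
  rw [e108, add_zero] at h
  obtain ⟨y, hy⟩ : ∃ y, y = (d : ℝ) / (6 * s) := ⟨_, rfl⟩
  have hdy : (d : ℝ) = 6 * s * y := by
    rw [hy]
    field_simp
  rw [← hy] at h
  obtain ⟨F, hF⟩ : ∃ F : ℤ, F = ⌊y⌋ := ⟨_, rfl⟩
  have h1 := Int.self_sub_floor y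
  have h2 := Int.fract_lt_one y
  rw [← hF] at h1
  rw [← h1] at h h2
  have e12 : Real.sqrt ((12 : ℕ) : ℝ) = 2 * s := by
    have := sqrt_mul_sq 3 2
    norm_num at this ⊢
    rw [this, hs]
    norm_num
  have e27 : Real.sqrt ((27 : ℕ) : ℝ) = 3 * s := by
    have := sqrt_mul_sq 3 3
    norm_num at this ⊢
    rw [this, hs]
    norm_num
  constructor
  · by_contra hcon
    obtain ⟨m, hm1, hm2⟩ := hD.1 12 d (by norm_num) hd hcon
    have h3 : TH885.NW.loW 12 ≤ Real.sqrt ((12 : ℕ) : ℝ) - 3 := min_le_left _ _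
    have h4 : TH885.NW.upW 12 ≤ Real.sqrt ((12 : ℕ) : ℝ) - 3 := min_le_left _ _
    rw [e12, hdy] at hm1 hm2
    rw [e12] at h3 h4
    refine no_int (F := 3 * F + 2) (d := m) ?_ ?_
    · push_cast
      by_contra hc
      push Not at hc
      have h5 : (m : ℝ) < 3 * y - 0.134 := by linarith
      have h6 := mul_lt_mul_of_pos_left h5 hs0
      nlinarith
    · push_cast
      by_contra hc
      push Not at hc
      have h5 : 3 * y < (m : ℝ) := by linarith
      have h6 := mul_lt_mul_of_pos_left h5 hs0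
      nlinarith
  · by_contra hcon
    obtain ⟨m, hm1, hm2⟩ := hD.1 27 d (by norm_num) hd hcon
    have h3 : TH885.NW.loW 27 ≤ 2 / 3 + 9 / (4 * Real.sqrt ((27 : ℕ) : ℝ)) := min_le_right _ _
    have h4 : TH885.NW.upW 27 ≤ 2 / 3 + 1 / (4 * Real.sqrt ((27 : ℕ) : ℝ)) := min_le_right _ _
    rw [e27, hdy] at hm1 hm2
    rw [e27] at h3 h4
    have h5 : 9 / (4 * (3 * s)) = s / 4 := by
      rw [div_eq_iff (by positivity)]
      nlinarith
    have h6 : 1 / (4 * (3 * s)) = s / 36 := by
      rw [div_eq_iff (by positivity)]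
      nlinarith
    rw [h5] at h3
    rw [h6] at h4
    refine no_int (F := 2 * F + 1) (d := m) ?_ ?_
    · push_cast
      by_contra hc
      push Not at hc
      have h7 : (m : ℝ) < 2 * y - 0.4228 := by linarith
      have h8 := mul_lt_mul_of_pos_left h7 hs0
      nlinarith
    · push_cast
      by_contra hc
      push Not at hc
      have h7 : 2 * y < (m : ℝ) := by linarith
      have h8 := mul_lt_mul_of_pos_left h7 hs0
      nlinarith

lemma dclass_two {D : ℕ → ℕ → Prop} (hD : DInputs D) {d : ℕ} (hd : 0 < d)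
    (h : 0.8081 < Int.fract ((d : ℝ) / Real.sqrt (288 : ℕ) + 0)) : D 18 d ∧ D 32 d := by
  obtain ⟨s, hs⟩ : ∃ s, s = Real.sqrt ((2 : ℕ) : ℝ) := ⟨_, rfl⟩
  obtain ⟨b1, b2⟩ := two_bounds
  rw [← hs] at b1 b2
  have hs0 : 0 < s := by linarith
  have hss : s * s = 2 := by
    rw [hs]
    have := Real.mul_self_sqrt (Nat.cast_nonneg (α := ℝ) 2)
    rw [this]
    norm_num
  have e288 : Real.sqrt ((288 : ℕ) : ℝ) = 12 * s := by
    have := sqrt_mul_sq 2 12
    norm_num at this ⊢
    rw [this, hs]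
    norm_num
  rw [e288, add_zero] at h
  obtain ⟨y, hy⟩ : ∃ y, y = (d : ℝ) / (12 * s) := ⟨_, rfl⟩
  have hdy : (d : ℝ) = 12 * s * y := by
    rw [hy]
    field_simp
  rw [← hy] at h
  obtain ⟨F, hF⟩ : ∃ F : ℤ, F = ⌊y⌋ := ⟨_, rfl⟩
  have h1 := Int.self_sub_floor y
  have h2 := Int.fract_lt_one y
  rw [← hF] at h1
  rw [← h1] at h h2
  have e18 : Real.sqrt ((18 : ℕ) : ℝ) = 3 * s := by
    have := sqrt_mul_sq 2 3
    norm_num at this ⊢
    rw [this, hs]
    norm_num
  have e32 : Real.sqrt ((32 : ℕ) : ℝ) = 4 * s := by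
    have := sqrt_mul_sq 2 4
    norm_num at this ⊢
    rw [this, hs]
    norm_num
  constructor
  · by_contra hcon
    obtain ⟨m, hm1, hm2⟩ := hD.1 18 d (by norm_num) hd hcon
    have h3 : TH885.NW.loW 18 ≤ 2 / 3 + 9 / (4 * Real.sqrt ((18 : ℕ) : ℝ)) := min_le_right _ _
    have h4 : TH885.NW.upW 18 ≤ 2 / 3 + 1 / (4 * Real.sqrt ((18 : ℕ) : ℝ)) := min_le_right _ _
    rw [e18, hdy] at hm1 hm2
    rw [e18] at h3 h4
    have h5 : 9 / (4 * (3 * s)) = 3 * s / 8 := by
      rw [div_eq_iff (by positivity)]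
      nlinarith
    have h6 : 1 / (4 * (3 * s)) = s / 24 := by
      rw [div_eq_iff (by positivity)]
      nlinarith
    rw [h5] at h3
    rw [h6] at h4
    refine no_int (F := 4 * F + 3) (d := m) ?_ ?_
    · push_cast
      by_contra hc
      push Not at hc
      have h7 : (m : ℝ) < 4 * y - 0.2324 := by linarith
      have h8 := mul_lt_mul_of_pos_left h7 hs0
      nlinarith
    · push_cast
      by_contra hc
      push Not at hc
      have h7 : 4 * y < (m : ℝ) := by linarith
      have h8 := mul_lt_mul_of_pos_left h7 hs0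
      nlinarith
  · by_contra hcon
    obtain ⟨m, hm1, hm2⟩ := hD.1 32 d (by norm_num) hd hcon
    have h3 : TH885.NW.loW 32 ≤ 2 / 3 + 9 / (4 * Real.sqrt ((32 : ℕ) : ℝ)) := min_le_right _ _
    have h4 : TH885.NW.upW 32 ≤ 2 / 3 + 1 / (4 * Real.sqrt ((32 : ℕ) : ℝ)) := min_le_right _ _
    rw [e32, hdy] at hm1 hm2
    rw [e32] at h3 h4
    have h5 : 9 / (4 * (4 * s)) = 9 * s / 32 := by
      rw [div_eq_iff (by positivity)]
      nlinarith
    have h6 : 1 / (4 * (4 * s)) = s / 32 := by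
      rw [div_eq_iff (by positivity)]
      nlinarith
    rw [h5] at h3
    rw [h6] at h4
    refine no_int (F := 3 * F + 2) (d := m) ?_ ?_
    · push_cast
      by_contra hc
      push Not at hc
      have h7 : (m : ℝ) < 3 * y - 0.4243 := by linarith
      have h8 := mul_lt_mul_of_pos_left h7 hs0
      nlinarith
    · push_cast
      by_contra hc
      push Not at hc
      have h7 : 3 * y < (m : ℝ) := by linarith
      have h8 := mul_lt_mul_of_pos_left h7 hs0
      nlinarith

/-- the denominators -/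
def dn (r : ℕ) : ℕ :=
  if r = 12 then 18 else if r = 18 then 24 else if r = 20 then 10 else if r = 24 then 12 else if r = 28 then 14 else r

/-- the representatives of the square classes -/
def rho (r : ℕ) : ℕ := if r = 12 then 108 else if r = 18 then 288 else r

/-- the common denominator -/
def t0 : ℕ := 2406725881560

/-- the numerators -/
def u1 (r : ℕ) : ℕ := t0 / dn r

lemma tab : ∀ r ∈ T0, u1 r * dn r = t0 ∧ 1 ≤ u1 r ∧ rho r * sg r = dn r ^ 2 ∧ 0 < dn r := by decide

/-- the shifts -/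
noncomputable def g1 (r : ℕ) : ℝ :=
  if r = 12 then 0 else if r = 18 then 0 else (3 + TH885.NW.loW r) / (2 * Real.sqrt r) - 1 / 2

/-- the lengths -/
noncomputable def l1 (r : ℕ) : ℝ :=
  if r = 12 then 0.7114 else if r = 18 then 0.8081 else (TH885.NW.loW r + TH885.NW.upW r) / (2 * Real.sqrt r)

lemma conv1 {r : ℕ} (hr : r ∈ T0) (d : ℕ) :
    (u1 r : ℝ) * Real.sqrt (sg r) / t0 * d = d / Real.sqrt (rho r) := by
  obtain ⟨h1, h2, h3, h4⟩ := tab r hr
  have hsq : Real.sqrt (rho r) * Real.sqrt (sg r) = dn r := by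
    rw [← Real.sqrt_mul (Nat.cast_nonneg _), ← Nat.cast_mul, h3, Nat.cast_pow, Real.sqrt_sq (Nat.cast_nonneg _)]
  have hdn : (0 : ℝ) < dn r := by exact_mod_cast h4
  have h5 : 0 < Real.sqrt (rho r) := by
    refine lt_of_le_of_ne (Real.sqrt_nonneg _) fun h0 => ?_
    rw [← h0, zero_mul] at hsq
    linarith
  have h6 : 0 < Real.sqrt (sg r) := by
    refine lt_of_le_of_ne (Real.sqrt_nonneg _) fun h0 => ?_
    rw [← h0, mul_zero] at hsq
    linarith
  have hu : (0 : ℝ) < u1 r := by exact_mod_cast h2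
  have h7 : (t0 : ℝ) = u1 r * dn r := by exact_mod_cast h1.symm
  rw [h7, ← hsq]
  field_simp

/-- lower bounds for `1 - l1 r` -/
def lowa (r : ℕ) : ℚ :=
  if r = 10 then 9486 / 10000 else if r = 11 then 9045 / 10000 else if r = 12 then 2886 / 10000 else
  if r = 14 then 8017 / 10000 else if r = 15 then 7928 / 10000 else if r = 17 then 7756 / 10000 else
  if r = 18 then 1919 / 10000 else if r = 19 then 7812 / 10000 else if r = 20 then 7884 / 10000 else
  if r = 22 then 8010 / 10000 else if r = 23 then 8066 / 10000 else if r = 24 then 8118 / 10000 else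
  if r = 26 then 8211 / 10000 else if r = 28 then 8293 / 10000 else if r = 29 then 8330 / 10000 else
  if r = 30 then 8366 / 10000 else if r = 31 then 8399 / 10000 else if r = 33 then 8460 / 10000 else
  if r = 34 then 8489 / 10000 else 8515 / 10000

lemma boundA {r : ℕ} (hr : 10 ≤ r) {q : ℝ} (hq0 : 0 < q) (hq : (r : ℝ) ≤ q ^ 2) :
    3 / q ≤ 1 - (TH885.NW.loW r + TH885.NW.upW r) / (2 * Real.sqrt r) := by
  have hr0 : (0 : ℝ) < r := by exact_mod_cast (by omega : 0 < r)
  have hs0 : 0 < Real.sqrt r := Real.sqrt_pos.2 hr0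
  have h1 : Real.sqrt r ≤ q := Real.sqrt_le_iff.2 ⟨hq0.le, hq⟩
  have h3 : TH885.NW.loW r ≤ Real.sqrt r - 3 := min_le_left _ _
  have h4 : TH885.NW.upW r ≤ Real.sqrt r - 3 := min_le_left _ _
  have h5 : (TH885.NW.loW r + TH885.NW.upW r) / (2 * Real.sqrt r) ≤ 1 - 3 / Real.sqrt r := by
    rw [div_le_iff₀ (by positivity)]
    have : (1 - 3 / Real.sqrt r) * (2 * Real.sqrt r) = 2 * Real.sqrt r - 6 := by
      field_simp
      ring
    rw [this]
    linarith
  have h6 : 3 / q ≤ 3 / Real.sqrt r := div_le_div_of_nonneg_left (by norm_num) hs0 h1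
  linarith

lemma boundB {r : ℕ} (hr : 10 ≤ r) {q : ℝ} (hq0 : 0 < q) (hq : (r : ℝ) ≤ q ^ 2) :
    1 / 2 + 7 / (6 * q) - 1 / (8 * r) ≤ 1 - (TH885.NW.loW r + TH885.NW.upW r) / (2 * Real.sqrt r) := by
  have hr0 : (0 : ℝ) < r := by exact_mod_cast (by omega : 0 < r)
  have hs0 : 0 < Real.sqrt r := Real.sqrt_pos.2 hr0
  have h1 : Real.sqrt r ≤ q := Real.sqrt_le_iff.2 ⟨hq0.le, hq⟩
  have h3 : TH885.NW.loW r ≤ Real.sqrt r - 3 := min_le_left _ _
  have h4 : TH885.NW.upW r ≤ 2 / 3 + 1 / (4 * Real.sqrt r) := min_le_right _ _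
  have hss : Real.sqrt r * Real.sqrt r = r := Real.mul_self_sqrt hr0.le
  have h5 : (TH885.NW.loW r + TH885.NW.upW r) / (2 * Real.sqrt r) ≤ 1 / 2 - 7 / (6 * Real.sqrt r) + 1 / (8 * r) := by
    rw [div_le_iff₀ (by positivity)]
    have : (1 / 2 - 7 / (6 * Real.sqrt r) + 1 / (8 * r)) * (2 * Real.sqrt r) =
        Real.sqrt r - 3 + (2 / 3 + 1 / (4 * Real.sqrt r)) := by
      generalize Real.sqrt (r : ℝ) = S at hs0 hss ⊢
      rw [← hss]
      field_simp
      ring
    rw [this]
    linarith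
  have h6 : 7 / (6 * q) ≤ 7 / (6 * Real.sqrt r) :=
    div_le_div_of_nonneg_left (by norm_num) (by positivity) (by linarith)
  linarith

lemma boundC {r : ℕ} (hr : 10 ≤ r) {p : ℝ} (hp0 : 0 < p) (hp : p ^ 2 ≤ (r : ℝ)) :
    1 - 2 / (3 * p) - 5 / (4 * r) ≤ 1 - (TH885.NW.loW r + TH885.NW.upW r) / (2 * Real.sqrt r) := by
  have hr0 : (0 : ℝ) < r := by exact_mod_cast (by omega : 0 < r)
  have hs0 : 0 < Real.sqrt r := Real.sqrt_pos.2 hr0
  have h1 : p ≤ Real.sqrt r := Real.le_sqrt_of_sq_le hp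
  have h3 : TH885.NW.loW r ≤ 2 / 3 + 9 / (4 * Real.sqrt r) := min_le_right _ _
  have h4 : TH885.NW.upW r ≤ 2 / 3 + 1 / (4 * Real.sqrt r) := min_le_right _ _
  have hss : Real.sqrt r * Real.sqrt r = r := Real.mul_self_sqrt hr0.le
  have h5 : (TH885.NW.loW r + TH885.NW.upW r) / (2 * Real.sqrt r) ≤ 2 / (3 * Real.sqrt r) + 5 / (4 * r) := by
    rw [div_le_iff₀ (by positivity)]
    have : (2 / (3 * Real.sqrt r) + 5 / (4 * r)) * (2 * Real.sqrt r) =
        2 / 3 + 9 / (4 * Real.sqrt r) + (2 / 3 + 1 / (4 * Real.sqrt r)) := by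
      generalize Real.sqrt (r : ℝ) = S at hs0 hss ⊢
      rw [← hss]
      field_simp
      ring
    rw [this]
    linarith
  have h6 : 2 / (3 * Real.sqrt r) ≤ 2 / (3 * p) :=
    div_le_div_of_nonneg_left (by norm_num) (by positivity) (by linarith)
  linarith

lemma lowa_le : ∀ r ∈ T0, (lowa r : ℝ) ≤ 1 - l1 r := by
  intro r hr
  simp only [T0, mem_insert, mem_singleton] at hr
  rcases hr with rfl | rfl | rfl | rfl | rfl | rfl | rfl | rfl | rfl | rfl | rfl | rfl | rfl | rfl | rfl | rfl | rfl |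
    rfl | rfl | rfl
  · have := boundA (r := 10) (by norm_num) (q := 3.16228) (by norm_num) (by norm_num)
    refine le_trans ?_ (this.trans_eq (by norm_num [l1]))
    norm_num [lowa]
  · have := boundA (r := 11) (by norm_num) (q := 3.31663) (by norm_num) (by norm_num)
    refine le_trans ?_ (this.trans_eq (by norm_num [l1]))
    norm_num [lowa]
  · norm_num [lowa, l1]
  · have := boundA (r := 14) (by norm_num) (q := 3.74166) (by norm_num) (by norm_num)
    refine le_trans ?_ (this.trans_eq (by norm_num [l1]))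
    norm_num [lowa]
  · have := boundB (r := 15) (by norm_num) (q := 3.87299) (by norm_num) (by norm_num)
    refine le_trans ?_ (this.trans_eq (by norm_num [l1]))
    norm_num [lowa]
  · have := boundB (r := 17) (by norm_num) (q := 4.12311) (by norm_num) (by norm_num)
    refine le_trans ?_ (this.trans_eq (by norm_num [l1]))
    norm_num [lowa]
  · norm_num [lowa, l1]
  · have := boundC (r := 19) (by norm_num) (p := 4.35889) (by norm_num) (by norm_num)
    refine le_trans ?_ (this.trans_eq (by norm_num [l1]))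
    norm_num [lowa]
  · have := boundC (r := 20) (by norm_num) (p := 4.47213) (by norm_num) (by norm_num)
    refine le_trans ?_ (this.trans_eq (by norm_num [l1]))
    norm_num [lowa]
  · have := boundC (r := 22) (by norm_num) (p := 4.69041) (by norm_num) (by norm_num)
    refine le_trans ?_ (this.trans_eq (by norm_num [l1]))
    norm_num [lowa]
  · have := boundC (r := 23) (by norm_num) (p := 4.79583) (by norm_num) (by norm_num)
    refine le_trans ?_ (this.trans_eq (by norm_num [l1]))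
    norm_num [lowa]
  · have := boundC (r := 24) (by norm_num) (p := 4.89897) (by norm_num) (by norm_num)
    refine le_trans ?_ (this.trans_eq (by norm_num [l1]))
    norm_num [lowa]
  · have := boundC (r := 26) (by norm_num) (p := 5.09901) (by norm_num) (by norm_num)
    refine le_trans ?_ (this.trans_eq (by norm_num [l1]))
    norm_num [lowa]
  · have := boundC (r := 28) (by norm_num) (p := 5.2915) (by norm_num) (by norm_num)
    refine le_trans ?_ (this.trans_eq (by norm_num [l1]))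
    norm_num [lowa]
  · have := boundC (r := 29) (by norm_num) (p := 5.38516) (by norm_num) (by norm_num)
    refine le_trans ?_ (this.trans_eq (by norm_num [l1]))
    norm_num [lowa]
  · have := boundC (r := 30) (by norm_num) (p := 5.47722) (by norm_num) (by norm_num)
    refine le_trans ?_ (this.trans_eq (by norm_num [l1]))
    norm_num [lowa]
  · have := boundC (r := 31) (by norm_num) (p := 5.56776) (by norm_num) (by norm_num)
    refine le_trans ?_ (this.trans_eq (by norm_num [l1]))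
    norm_num [lowa]
  · have := boundC (r := 33) (by norm_num) (p := 5.74456) (by norm_num) (by norm_num)
    refine le_trans ?_ (this.trans_eq (by norm_num [l1]))
    norm_num [lowa]
  · have := boundC (r := 34) (by norm_num) (p := 5.83095) (by norm_num) (by norm_num)
    refine le_trans ?_ (this.trans_eq (by norm_num [l1]))
    norm_num [lowa]
  · have := boundC (r := 35) (by norm_num) (p := 5.91607) (by norm_num) (by norm_num)
    refine le_trans ?_ (this.trans_eq (by norm_num [l1]))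
    norm_num [lowa]

lemma lowa_nonneg : ∀ r ∈ T0, (0 : ℚ) ≤ lowa r := by
  intro r hr
  simp only [T0, mem_insert, mem_singleton] at hr
  rcases hr with rfl | rfl | rfl | rfl | rfl | rfl | rfl | rfl | rfl | rfl | rfl | rfl | rfl | rfl | rfl | rfl | rfl |
    rfl | rfl | rfl <;> norm_num [lowa]

lemma prod_low : (1 / 550 : ℚ) ≤ ∏ r ∈ T0, lowa r := by
  norm_num [T0, lowa]

lemma prod_ge : (1 / 550 : ℝ) ≤ ∏ r ∈ T0, (1 - l1 r) := by
  have h1 : ((1 / 550 : ℚ) : ℝ) ≤ ((∏ r ∈ T0, lowa r : ℚ) : ℝ) := by exact_mod_cast prod_low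
  rw [Rat.cast_prod] at h1
  have h2 : ∏ r ∈ T0, (lowa r : ℝ) ≤ ∏ r ∈ T0, (1 - l1 r) :=
    prod_le_prod (fun r hr => by exact_mod_cast lowa_nonneg r hr) lowa_le
  refine le_trans ?_ (h1.trans h2)
  norm_num

lemma l1_nonneg {r : ℕ} (hr : r ∈ T0) : 0 ≤ l1 r := by
  unfold l1
  split_ifs
  · norm_num
  · norm_num
  · obtain ⟨g1, g2, g3⟩ := TH885.NW.win_len (T0_ge r hr)
    exact div_nonneg (by linarith) (by positivity)

lemma l1_le {r : ℕ} (hr : r ∈ T0) : l1 r ≤ 1 := by
  have h1 := lowa_le r hr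
  have h2 : (0 : ℝ) ≤ (lowa r : ℝ) := by exact_mod_cast lowa_nonneg r hr
  linarith

lemma Sparse.mono_eta {κ η η' : ℝ} {K M : ℕ} {P : ℕ → Prop} (h : Sparse κ K M η P) (hη : η ≤ η') :
    Sparse κ K M η' P := by
  refine ⟨fun f h1 h2 h3 => (h.1 f h1 h2 h3).trans ?_, fun b c h1 h2 d a h3 h4 => (h.2 b c h1 h2 d a h3 h4).trans ?_⟩
  · have := mul_le_mul_of_nonneg_right hη (Nat.cast_nonneg (α := ℝ) M)
    linarith
  · have := mul_le_mul_of_nonneg_right hη
      (Nat.cast_nonneg (α := ℝ) ({p : ℕ | p ≤ M ∧ p.Prime ∧ p ≡ a [MOD d]}.ncard))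
    linarith

/-- **All numbers of points and all multiplicities at once, for one degree in 550.** -/
theorem all_degrees (D : ℕ → ℕ → Prop) (hD : DInputs D) (K : ℕ) :
    ∃ κ : ℝ, 0 < κ ∧ κ ≤ 1 ∧ ∃ M₀ : ℕ, 2 ≤ M₀ ∧ ∀ M : ℕ, M₀ ≤ M →
      Sparse κ K M (1 - 1 / 550) (fun d => ∀ r : ℕ, 10 ≤ r → D r d) := by
  have hT : (∃ κ : ℝ, 0 < κ ∧ κ ≤ 1 ∧ ∃ M₀ : ℕ, 2 ≤ M₀ ∧ ∀ M : ℕ, M₀ ≤ M →
      Sparse κ K M (1 - ∏ r ∈ T0, (1 - l1 r)) (fun d => ∀ r : ℕ, 10 ≤ r → D r d)) := by
    refine seqs_fin_t T0 ⟨10, by decide⟩ sg u1 sg_sf (by decide) (by decide) (fun r hr => (tab r hr).2.1) t0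
      (by decide) g1 l1 (fun r hr => l1_nonneg hr) (fun r hr => l1_le hr) _ ?_ K
    intro d hd h r hr
    have key : ∀ q ∈ T0, q ≠ 12 → q ≠ 18 → D q d := by
      intro q hq h12 h18
      have h2 := h q hq
      rw [conv1 hq] at h2
      unfold l1 g1 rho at h2
      rw [if_neg h12, if_neg h12, if_neg h12, if_neg h18, if_neg h18, if_neg h18] at h2
      by_contra hcon
      obtain ⟨m, hm1, hm2⟩ := hD.1 q d (T0_ge q hq) hd hcon
      have hq0 : (0 : ℝ) < q := by exact_mod_cast (by have := T0_ge q hq; omega : 0 < q)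
      have h3 := fract_deg (Real.sqrt_pos.2 hq0) hm1 hm2
      linarith
    have h3 := h 12 (by decide)
    rw [conv1 (by decide)] at h3
    have h4 : D 12 d ∧ D 27 d := by
      apply dclass_three hD hd
      simp only [l1, g1, rho] at h3
      norm_num at h3 ⊢
      exact h3
    have h5 := h 18 (by decide)
    rw [conv1 (by decide)] at h5
    have h6 : D 18 d ∧ D 32 d := by
      apply dclass_two hD hd
      simp only [l1, g1, rho] at h5
      norm_num at h5 ⊢
      exact h5
    rcases Nat.lt_or_ge r 37 with hlt | hge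
    · interval_cases r
      · exact key 10 (by decide) (by decide) (by decide)
      · exact key 11 (by decide) (by decide) (by decide)
      · exact h4.1
      · exact hD.2 13 d (by norm_num) hd
      · exact key 14 (by decide) (by decide) (by decide)
      · exact key 15 (by decide) (by decide) (by decide)
      · exact hD.2 16 d (Or.inr (Or.inr (Or.inr ⟨by norm_num, ⟨4, by norm_num⟩⟩))) hd
      · exact key 17 (by decide) (by decide) (by decide)
      · exact h6.1
      · exact key 19 (by decide) (by decide) (by decide)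
      · exact key 20 (by decide) (by decide) (by decide)
      · exact hD.2 21 d (by norm_num) hd
      · exact key 22 (by decide) (by decide) (by decide)
      · exact key 23 (by decide) (by decide) (by decide)
      · exact key 24 (by decide) (by decide) (by decide)
      · exact hD.2 25 d (Or.inr (Or.inr (Or.inr ⟨by norm_num, ⟨5, by norm_num⟩⟩))) hd
      · exact key 26 (by decide) (by decide) (by decide)
      · exact h4.2
      · exact key 28 (by decide) (by decide) (by decide)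
      · exact key 29 (by decide) (by decide) (by decide)
      · exact key 30 (by decide) (by decide) (by decide)
      · exact key 31 (by decide) (by decide) (by decide)
      · exact h6.2
      · exact key 33 (by decide) (by decide) (by decide)
      · exact key 34 (by decide) (by decide) (by decide)
      · exact key 35 (by decide) (by decide) (by decide)
      · exact hD.2 36 d (Or.inr (Or.inr (Or.inr ⟨by norm_num, ⟨6, by norm_num⟩⟩))) hd
    · exact hD.2 r d (Or.inl hge) hd
  obtain ⟨κ, hκ, hκ1, M₀, hM₀, h⟩ := hT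
  exact ⟨κ, hκ, hκ1, M₀, hM₀, fun M hM => (h M hM).mono_eta (by linarith [prod_ge])⟩

end Pool.Agent.Q54.FM
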