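import Pool.Agent.Q54.FM.Abs

set_option autoImplicit false

/-!
# Several numbers of points at once, general windows
-/

namespace Pool.Agent.Q54.FM

open Finset Polynomial Pool.Agent.Q29.Eqd

theorem several_gen (G : ℕ → ℕ → Prop) (Z T : Finset ℕ) (hT : T.Nonempty) (hsq : ∀ r ∈ T, ¬ IsSquare r)
    (hpair : ∀ r ∈ T, ∀ r' ∈ T, r ≠ r' → ¬ IsSquare (r * r')) (A B : ℕ → ℝ)
    (hAB : ∀ r ∈ T, r ∉ Z → 0 ≤ A r + B r ∧ A r + B r ≤ 2)
    (H1 : ∀ r ∈ T, r ∉ Z → ∀ m : ℕ, 0 < m → ¬ G r m → ∃ d : ℕ,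
      -A r ≤ 2 * (d : ℝ) + 3 - Real.sqrt r * (2 * m + 1) ∧ 2 * (d : ℝ) + 3 - Real.sqrt r * (2 * m + 1) ≤ B r)
    (hZ : ∀ r ∈ T, r ∈ Z → 3 ≤ Real.sqrt r ∧ Real.sqrt r ≤ 9)
    (H2 : ∀ r ∈ T, r ∈ Z → ∀ m : ℕ, 0 < m → ¬ G r m → ∃ k : ℕ, Real.sqrt r * m ≤ 3 * k ∧
      6 * (k : ℝ) + 3 < Real.sqrt r * (2 * m + 1))
    (P : ℕ → Prop) (hP : ∀ m : ℕ, 0 < m → (∀ r ∈ T, G r m) → P m) (K : ℕ) :
    ∃ κ : ℝ, 0 < κ ∧ κ ≤ 1 ∧ ∃ M₀ : ℕ, 2 ≤ M₀ ∧ ∀ M : ℕ, M₀ ≤ M →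
      Sparse κ K M (1 - ∏ r ∈ T, (1 - (if r ∈ Z then (Real.sqrt r - 3) / 6 else (A r + B r) / 2))) P := by
  refine several Z T hT hsq hpair (fun r => if r ∈ Z then (Real.sqrt r - 3) / 6 else (Real.sqrt r - 3 + B r) / 2)
    (fun r => if r ∈ Z then (Real.sqrt r - 3) / 6 else (A r + B r) / 2) ?_ ?_ P ?_ K
  · intro r hr
    by_cases hz : r ∈ Z
    · simp only [hz, if_true]
      have := hZ r hr hz
      linarith
    · simp only [hz, if_false]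
      have := hAB r hr hz
      linarith
  · intro r hr
    by_cases hz : r ∈ Z
    · simp only [hz, if_true]
      have := hZ r hr hz
      linarith
    · simp only [hz, if_false]
      have := hAB r hr hz
      linarith
  · intro m hm h
    apply hP m hm
    intro r hr
    have h0 := h r hr
    by_contra hcon
    by_cases hz : r ∈ Z
    · simp only [hz, if_true] at h0
      obtain ⟨k, hk1, hk2⟩ := H2 r hr hz m hm hcon
      have h1 : ((k : ℤ) : ℝ) ≤ Real.sqrt r / 3 * m + (Real.sqrt r - 3) / 6 := by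
        push_cast
        linarith
      have h2 := Int.le_floor.2 h1
      have h3 : ((k : ℤ) : ℝ) ≤ (⌊Real.sqrt r / 3 * m + (Real.sqrt r - 3) / 6⌋ : ℝ) := by exact_mod_cast h2
      rw [← Int.self_sub_floor] at h0
      push_cast at h3
      linarith
    · simp only [hz, if_false] at h0
      obtain ⟨d, hd1, hd2⟩ := H1 r hr hz m hm hcon
      have h1 := fract_le hd1 hd2
      rw [div_one] at h0
      linarith

end Pool.Agent.Q54.FM
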