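import Pool.Agent.Q54.FM.Liou
import Pool.Agent.Q29.EqPoint

set_option autoImplicit false

/-!
# Joint uniform distribution of the multiples of square roots
-/

namespace Pool.Agent.Q54.FM

open Finset Pool.Agent.Q29.Eqd

/-- the lower bound for linear forms in the square roots of different squarefree numbers -/
theorem liou_vec {s : ℕ} (σ : Fin s → ℕ) (hsf : ∀ j, Squarefree (σ j)) (h1 : ∀ j, σ j ≠ 1)
    (hinj : Function.Injective σ) : ∃ c : ℝ, 0 < c ∧ ∃ D : ℕ, ∀ (v : Fin s → ℤ) (a : ℤ), v ≠ 0 →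
    ∀ H : ℝ, 1 ≤ H → (∀ j, |(v j : ℝ)| ≤ H) → |(a : ℝ)| ≤ H →
      c ≤ |∑ j, (v j : ℝ) * Real.sqrt (σ j) - a| * H ^ D := by
  classical
  obtain ⟨P, hP⟩ : ∃ P : Finset ℕ, P = univ.biUnion fun j => (σ j).primeFactors := ⟨_, rfl⟩
  have hPp : ∀ i : {x // x ∈ P}, (i : ℕ).Prime := by
    rintro ⟨i, hi⟩
    rw [hP, mem_biUnion] at hi
    obtain ⟨j, -, hj⟩ := hi
    exact (Nat.mem_primeFactors.1 hj).1
  obtain ⟨c, hc, h⟩ := liou (I := {x // x ∈ P}) (fun i => (i : ℕ)) hPp Subtype.val_injective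
  refine ⟨c, hc, Fintype.card (Finset {x // x ∈ P}), fun v a hv H hH hvH haH => ?_⟩
  obtain ⟨B, hB⟩ : ∃ B : Fin s → Finset {x // x ∈ P}, B = fun j => univ.filter fun i : {x // x ∈ P} => (i : ℕ) ∣ σ j :=
    ⟨_, rfl⟩
  have hpr : ∀ j, pr (fun i : {x // x ∈ P} => (i : ℕ)) (B j) = σ j := by
    intro j
    have h2 : (B j).map (Function.Embedding.subtype _) = (σ j).primeFactors := by
      ext q
      rw [mem_map, Nat.mem_primeFactors]
      constructor
      · rintro ⟨i, hi, rfl⟩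
        rw [hB, mem_filter] at hi
        exact ⟨hPp i, hi.2, (hsf j).ne_zero⟩
      · rintro ⟨h3, h4, h5⟩
        have h6 : q ∈ P := by
          rw [hP, mem_biUnion]
          exact ⟨j, mem_univ _, Nat.mem_primeFactors.2 ⟨h3, h4, h5⟩⟩
        refine ⟨⟨q, h6⟩, ?_, rfl⟩
        rw [hB, mem_filter]
        exact ⟨mem_univ _, h4⟩
    have h3 : pr (fun i : {x // x ∈ P} => (i : ℕ)) (B j) = ∏ q ∈ (B j).map (Function.Embedding.subtype _), q := by
      rw [prod_map]
      rfl
    rw [h3, h2, Nat.prod_primeFactors_of_squarefree (hsf j)]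
  have hBinj : Function.Injective B := by
    intro i j hij
    apply hinj
    rw [← hpr i, ← hpr j, hij]
  have hB0 : ∀ j, B j ≠ ∅ := by
    intro j h0
    apply h1 j
    rw [← hpr j, h0]
    unfold pr
    simp
  obtain ⟨w, hw⟩ : ∃ w : Finset {x // x ∈ P} → ℤ, w = fun A => (∑ j, if B j = A then v j else 0) - if A = ∅ then a else 0 :=
    ⟨_, rfl⟩
  have hwB : ∀ j, w (B j) = v j := by
    intro j
    rw [hw]
    simp only [hB0 j, if_false, sub_zero]
    rw [sum_eq_single j]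
    · simp
    · intro i _ hij
      rw [if_neg fun h => hij (hBinj h)]
    · intro h
      exact absurd (mem_univ j) h
  have hw0 : w ∅ = -a := by
    rw [hw]
    simp only [if_true]
    rw [sum_eq_zero fun j _ => if_neg (hB0 j)]
    ring
  have hwn : ∀ A, (∀ j, B j ≠ A) → A ≠ ∅ → w A = 0 := by
    intro A h2 h3
    rw [hw]
    simp only [if_neg h3, sub_zero]
    exact sum_eq_zero fun j _ => if_neg (h2 j)
  have hwne : w ≠ 0 := by
    intro h0
    apply hv
    funext j
    rw [← hwB j, h0]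
    rfl
  have h2 := h w hwne H hH (by
    intro A
    by_cases hA : ∃ j, B j = A
    · obtain ⟨j, rfl⟩ := hA
      rw [hwB j]
      exact hvH j
    · push Not at hA
      by_cases hA0 : A = ∅
      · rw [hA0, hw0]
        push_cast
        rw [abs_neg]
        exact haH
      · rw [hwn A hA hA0]
        simp
        linarith)
  have h3 : ∑ A, (w A : ℝ) * Real.sqrt (pr (fun i : {x // x ∈ P} => (i : ℕ)) A) =
      ∑ j, (v j : ℝ) * Real.sqrt (σ j) - a := by
    have h4 : ∀ A, (w A : ℝ) = (∑ j, if B j = A then (v j : ℝ) else 0) - if A = ∅ then (a : ℝ) else 0 := by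
      intro A
      rw [hw]
      push_cast
      rfl
    calc ∑ A, (w A : ℝ) * Real.sqrt (pr (fun i : {x // x ∈ P} => (i : ℕ)) A)
        = ∑ A, ((∑ j, if B j = A then (v j : ℝ) * Real.sqrt (σ j) else 0) - if A = ∅ then (a : ℝ) else 0) := by
          refine sum_congr rfl fun A _ => ?_
          rw [h4 A, sub_mul, Finset.sum_mul]
          congr 1
          · refine sum_congr rfl fun j _ => ?_
            by_cases hj : B j = A
            · rw [if_pos hj, if_pos hj, ← hj, hpr j]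
            · rw [if_neg hj, if_neg hj, zero_mul]
          · by_cases hA : A = ∅
            · rw [if_pos hA, hA]
              unfold pr
              simp
            · rw [if_neg hA, zero_mul]
      _ = _ := by
          rw [sum_sub_distrib, sum_comm]
          congr 1
          · refine sum_congr rfl fun j _ => ?_
            rw [sum_ite_eq]
            simp
          · rw [sum_ite_eq']
            simp
  rwa [h3] at h2

/-- **Joint uniform distribution** of the multiples of `u j √(σ j) / t`. -/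
theorem joint_sqrt {s : ℕ} (hs : 1 ≤ s) (σ : Fin s → ℕ) (hsf : ∀ j, Squarefree (σ j)) (h1 : ∀ j, σ j ≠ 1)
    (hinj : Function.Injective σ) (u : Fin s → ℕ) (hu : ∀ j, 1 ≤ u j) (t : ℕ) (ht : 1 ≤ t) (K : ℕ) :
    ∃ κ : ℝ, 0 < κ ∧ κ ≤ 1 ∧ ∃ M₀ : ℕ, 2 ≤ M₀ ∧ ∀ M : ℕ, M₀ ≤ M → ∀ b : ℤ, b ≠ 0 → |(b : ℝ)| ≤ (M : ℝ) ^ κ →
      Joint κ K M (fun j : Fin s => (b : ℝ) * (u j * Real.sqrt (σ j) / t)) := by
  obtain ⟨c, hc, D, h⟩ := liou_vec σ hsf h1 hinj
  obtain ⟨δ, hδE⟩ : ∃ δ : ℝ, δ = 1 / (8 * (D + 2)) := ⟨_, rfl⟩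
  have hδ : 0 < δ := by rw [hδE]; positivity
  have hδD : δ * (1 + 4 * D) ≤ 1 / 2 := by
    rw [hδE, one_div, inv_mul_le_iff₀ (by positivity)]
    linarith
  have hδ1 : δ ≤ 1 := by nlinarith [hδD, hδ, mul_nonneg hδ.le (Nat.cast_nonneg (α := ℝ) D)]
  obtain ⟨κ₀, hκ₀, M₁, hM₁, hJ⟩ := joint_point s hs K δ hδ hδ1
  obtain ⟨V, hV⟩ : ∃ V : ℝ, V = ∑ j, (u j * Real.sqrt (σ j) : ℝ) := ⟨_, rfl⟩
  have hVj : ∀ j, (u j * Real.sqrt (σ j) : ℝ) ≤ V := by
    intro j
    rw [hV]
    exact single_le_sum (f := fun j => (u j * Real.sqrt (σ j) : ℝ)) (fun i _ => by positivity) (mem_univ j)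
  have hV0 : 0 ≤ V := by
    rw [hV]
    exact sum_nonneg fun i _ => by positivity
  have htR : (1 : ℝ) ≤ t := by exact_mod_cast ht
  have hsR : (1 : ℝ) ≤ s := by exact_mod_cast hs
  obtain ⟨U, hU⟩ : ∃ U : ℝ, U = ∑ j, (u j : ℝ) := ⟨_, rfl⟩
  have hUj : ∀ j, (u j : ℝ) ≤ U := by
    intro j
    rw [hU]
    exact single_le_sum (f := fun j => (u j : ℝ)) (fun i _ => by positivity) (mem_univ j)
  have hU0 : 0 ≤ U := by
    rw [hU]
    exact sum_nonneg fun i _ => by positivity
  obtain ⟨M₂, hM₂1, hM₂⟩ := ev_rpow (δ / 2) (s * V + 1 + U + t) (by positivity)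
  obtain ⟨M₃, hM₃1, hM₃⟩ := ev_rpow (1 / 2) (t / c + 1) (by norm_num)
  refine ⟨min (min κ₀ (δ / 2)) 1, lt_min (lt_min hκ₀ (by positivity)) one_pos, min_le_right _ _,
    max M₁ (max M₂ M₃), hM₁.trans (le_max_left _ _), fun M hM b hb hbM => ?_⟩
  have hMM1 : M₁ ≤ M := (le_max_left _ _).trans hM
  have hbig := hM₂ M (((le_max_left _ _).trans (le_max_right _ _)).trans hM)
  have hbig3 := hM₃ M (((le_max_right _ _).trans (le_max_right _ _)).trans hM)
  have hMpos : 1 ≤ M := by omega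
  have hM1 : (1 : ℝ) ≤ M := by exact_mod_cast hMpos
  have hM0 : (0 : ℝ) < M := by linarith
  have hκle : min (min κ₀ (δ / 2)) 1 ≤ κ₀ := (min_le_left _ _).trans (min_le_left _ _)
  have hbδ : |(b : ℝ)| ≤ (M : ℝ) ^ (δ / 2) := hbM.trans
    (Real.rpow_le_rpow_of_exponent_le hM1 ((min_le_left _ _).trans (min_le_right _ _)))
  have e1 : (M : ℝ) ^ δ = (M : ℝ) ^ (δ / 2) * (M : ℝ) ^ (δ / 2) := by
    rw [← Real.rpow_add hM0]
    congr 1
    ring
  obtain ⟨Y, hY⟩ : ∃ Y : ℝ, Y = (M : ℝ) ^ (δ / 2) := ⟨_, rfl⟩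
  have hY1 : 1 ≤ Y := by
    rw [hY]
    exact Real.one_le_rpow hM1 (by positivity)
  rw [← hY] at hbig hbδ e1
  have hjoint : Joint κ₀ K M (fun j : Fin s => (b : ℝ) * (u j * Real.sqrt (σ j) / t)) := by
    refine hJ M hMM1 _ (Y * V) ?_ ?_ ?_
    · intro k
      rw [abs_mul]
      have h2 : |(u k * Real.sqrt (σ k) / t : ℝ)| ≤ V := by
        rw [abs_of_nonneg (by positivity)]
        refine le_trans ?_ (hVj k)
        exact div_le_self (by positivity) htR
      exact mul_le_mul hbδ h2 (abs_nonneg _) (by linarith)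
    · rw [e1]
      have h2 : (s : ℝ) * V + 1 ≤ Y := by linarith
      have h3 : Y * (s * V + 1) ≤ Y * Y := mul_le_mul_of_nonneg_left h2 (by linarith)
      nlinarith
    · intro v a hv hvM haM
      have hY6 : (M : ℝ) ^ (3 * δ) = Y ^ 6 := by
        rw [hY, ← Real.rpow_natCast, ← Real.rpow_mul hM0.le]
        congr 1
        push_cast
        ring
      have hY8 : (M : ℝ) ^ (4 * δ) = Y ^ 8 := by
        rw [hY, ← Real.rpow_natCast, ← Real.rpow_mul hM0.le]
        congr 1
        push_cast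
        ring
      rw [hY6] at hvM haM
      have hUY : U ≤ Y := by nlinarith [mul_nonneg (by linarith : (0 : ℝ) ≤ s) hV0]
      have htY : (t : ℝ) ≤ Y := by nlinarith [mul_nonneg (by linarith : (0 : ℝ) ≤ s) hV0]
      have hY6' : 0 < Y ^ 6 := by positivity
      have h2 := h (fun j => v j * b * u j) (t * a) (by
        intro h0
        apply hv
        funext j
        have h3 := congrFun h0 j
        have h4 : (u j : ℤ) ≠ 0 := by
          have := hu j
          omega
        have h5 : v j * b * u j = 0 := h3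
        rcases mul_eq_zero.1 h5 with h6 | h6
        · exact (mul_eq_zero.1 h6).resolve_right hb
        · exact absurd h6 h4) (Y ^ 8) (one_le_pow₀ hY1) (by
        intro j
        push_cast
        rw [abs_mul, abs_mul, Nat.abs_cast]
        calc |(v j : ℝ)| * |(b : ℝ)| * u j ≤ Y ^ 6 * Y * Y := by
              apply mul_le_mul _ ((hUj j).trans hUY) (Nat.cast_nonneg _) (by positivity)
              exact mul_le_mul (hvM j) hbδ (abs_nonneg _) hY6'.le
          _ = Y ^ 8 := by ring) (by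
        push_cast
        rw [abs_mul, Nat.abs_cast]
        calc (t : ℝ) * |(a : ℝ)| ≤ Y * Y ^ 6 := mul_le_mul htY haM (abs_nonneg _) (by linarith)
          _ ≤ Y ^ 8 := by
            have : Y ^ 8 = Y * Y ^ 6 * Y := by ring
            rw [this]
            exact le_mul_of_one_le_right (by positivity) hY1)
      have h3 : ∑ j, (((v j * b * u j : ℤ)) : ℝ) * Real.sqrt (σ j) - ((t * a : ℤ) : ℝ) =
          t * (∑ k, (v k : ℝ) * ((b : ℝ) * (u k * Real.sqrt (σ k) / t)) - a) := by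
        rw [mul_sub, Finset.mul_sum]
        congr 1
        · refine sum_congr rfl fun j _ => ?_
          push_cast
          field_simp
        · push_cast
          ring
      rw [h3, abs_mul, Nat.abs_cast, ← hY8, ← Real.rpow_natCast, ← Real.rpow_mul hM0.le] at h2
      obtain ⟨F, hF⟩ : ∃ F : ℝ, F = |∑ k, (v k : ℝ) * ((b : ℝ) * (u k * Real.sqrt (σ k) / t)) - a| := ⟨_, rfl⟩
      rw [← hF] at h2 ⊢
      by_contra hcon
      rw [not_lt] at hcon
      have hF0 : 0 ≤ F := by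
        rw [hF]
        exact abs_nonneg _
      have h4 : c ≤ t * (M : ℝ) ^ (δ - 1) * (M : ℝ) ^ (4 * δ * D) := by
        refine h2.trans ?_
        apply mul_le_mul_of_nonneg_right _ (by positivity)
        exact mul_le_mul_of_nonneg_left hcon (by linarith)
      have h5 : (M : ℝ) ^ (δ - 1) * (M : ℝ) ^ (4 * δ * D) ≤ (M : ℝ) ^ (-(1 / 2) : ℝ) := by
        rw [← Real.rpow_add hM0]
        apply Real.rpow_le_rpow_of_exponent_le hM1
        linarith
      have h6 : (M : ℝ) ^ (-(1 / 2) : ℝ) * (M : ℝ) ^ (1 / 2 : ℝ) = 1 := by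
        rw [← Real.rpow_add hM0]
        simp
      have h7 : c * (M : ℝ) ^ (1 / 2 : ℝ) ≤ t := by
        have h8 : c ≤ t * (M : ℝ) ^ (-(1 / 2) : ℝ) := by
          refine h4.trans ?_
          rw [mul_assoc]
          exact mul_le_mul_of_nonneg_left h5 (by linarith)
        calc c * (M : ℝ) ^ (1 / 2 : ℝ) ≤ t * (M : ℝ) ^ (-(1 / 2) : ℝ) * (M : ℝ) ^ (1 / 2 : ℝ) :=
              mul_le_mul_of_nonneg_right h8 (by positivity)
          _ = t := by rw [mul_assoc, h6, mul_one]
      have h9 : c * (t / c + 1) ≤ t := (mul_le_mul_of_nonneg_left hbig3 hc.le).trans h7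
      rw [mul_add, mul_one, mul_div_cancel₀ _ hc.ne'] at h9
      linarith
  refine ⟨fun k hk hkK R hR => (hjoint.1 k hk hkK R hR).mono ?_ ?_, fun d r hd hdM β => ?_⟩
  · exact Real.rpow_le_rpow_of_exponent_le hM1 hκle
  · exact Real.rpow_le_rpow_of_exponent_le hM1 (by linarith)
  · refine (hjoint.2 d r hd (hdM.trans (Real.rpow_le_rpow_of_exponent_le hM1 hκle)) β).mono ?_ ?_
    · exact Real.rpow_le_rpow_of_exponent_le hM1 hκle
    · exact Real.rpow_le_rpow_of_exponent_le hM1 (by linarith)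

end Pool.Agent.Q54.FM
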