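import Pool.Agent.H383.LinIndep

set_option autoImplicit false

/-!
# A lower bound for integral linear forms in square roots
-/

namespace Pool.Agent.Q54.FM

open Finset

section general

variable {I : Type} [Fintype I] [DecidableEq I] (p : I → ℕ)

/-- the product of the numbers in `A` -/
def pr (A : Finset I) : ℕ := ∏ i ∈ A, p i

lemma pr_pos (hp : ∀ i, (p i).Prime) (A : Finset I) : 0 < pr p A := prod_pos fun i _ => (hp i).pos

lemma pr_le (hp : ∀ i, (p i).Prime) (A : Finset I) : pr p A ≤ pr p univ :=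
  prod_le_prod_of_subset_of_one_le' (subset_univ A) fun i _ _ => (hp i).one_lt.le

lemma pr_squarefree (hp : ∀ i, (p i).Prime) (hinj : Function.Injective p) (A : Finset I) : Squarefree (pr p A) := by
  unfold pr
  refine squarefree_prod_of_pairwise_isCoprime ?_ fun i _ => (hp i).prime.squarefree
  intro i _ j _ hij
  show IsRelPrime (p i) (p j)
  rw [← Nat.coprime_iff_isRelPrime]
  exact (Nat.coprime_primes (hp i) (hp j)).2 fun h => hij (hinj h)

lemma pr_inj (hp : ∀ i, (p i).Prime) (hinj : Function.Injective p) : Function.Injective (pr p) := by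
  have key : ∀ (A : Finset I) (i : I), i ∈ A ↔ p i ∣ pr p A := by
    intro A i
    constructor
    · intro h
      exact dvd_prod_of_mem p h
    · intro h
      obtain ⟨j, hj, hd⟩ := ((hp i).prime.dvd_finset_prod_iff p).1 h
      have := (Nat.prime_dvd_prime_iff_eq (hp i) (hp j)).1 hd
      rwa [hinj this]
  intro A B h
  ext i
  rw [key A i, key B i, h]

/-- the square roots -/
noncomputable def wt (A : Finset I) : ℝ := Real.sqrt (pr p A)

lemma wt_pos (hp : ∀ i, (p i).Prime) (A : Finset I) : 0 < wt p A :=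
  Real.sqrt_pos.2 (by exact_mod_cast pr_pos p hp A)

lemma wt_le (hp : ∀ i, (p i).Prime) (A : Finset I) : wt p A ≤ Real.sqrt (pr p univ) :=
  Real.sqrt_le_sqrt (by exact_mod_cast pr_le p hp A)

lemma wt_indep (hp : ∀ i, (p i).Prime) (hinj : Function.Injective p) : LinearIndependent ℚ (wt p) := by
  have h := H383.Gauss.sf_indep.comp (fun A : Finset I => (⟨pr p A, pr_squarefree p hp hinj A⟩ : {s : ℕ // Squarefree s}))
    (fun A B h => pr_inj p hp hinj (congrArg Subtype.val h))
  exact h

/-- multiplication of the square roots -/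
lemma wt_mul (hp : ∀ i, (p i).Prime) (A B : Finset I) : wt p A * wt p B = (pr p (A ∩ B) : ℝ) * wt p (symmDiff A B) := by
  have h1 : pr p A = pr p (A ∩ B) * pr p (A \ B) := by
    unfold pr
    exact (prod_inter_mul_prod_diff A B p).symm
  have h2 : pr p B = pr p (A ∩ B) * pr p (B \ A) := by
    unfold pr
    rw [inter_comm]
    exact (prod_inter_mul_prod_diff B A p).symm
  have h3 : pr p (symmDiff A B) = pr p (A \ B) * pr p (B \ A) := by
    unfold pr
    rw [symmDiff_def]
    exact prod_union (disjoint_sdiff_sdiff)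
  unfold wt
  rw [← Real.sqrt_mul (Nat.cast_nonneg _), h1, h2, h3]
  push_cast
  have h4 : (pr p (A ∩ B) : ℝ) * pr p (A \ B) * (pr p (A ∩ B) * pr p (B \ A)) =
      (pr p (A ∩ B) : ℝ) ^ 2 * (pr p (A \ B) * pr p (B \ A)) := by ring
  rw [h4, Real.sqrt_mul (by positivity), Real.sqrt_sq (Nat.cast_nonneg _)]

/-- the matrix of the multiplication by `∑ v B √B` -/
def mat (v : Finset I → ℤ) : Matrix (Finset I) (Finset I) ℤ := fun C A => v (symmDiff A C) * (pr p (A \ C) : ℤ)

lemma mat_eig (hp : ∀ i, (p i).Prime) (v : Finset I → ℤ) (A : Finset I) :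
    ∑ C, wt p C * (mat p v C A : ℝ) = (∑ B, (v B : ℝ) * wt p B) * wt p A := by
  rw [Finset.sum_mul]
  refine Fintype.sum_equiv (Function.Involutive.toPerm (fun C => symmDiff A C) fun C => symmDiff_symmDiff_cancel_left A C)
    _ _ fun C => ?_
  have h0 : (Function.Involutive.toPerm (fun C => symmDiff A C) fun C => symmDiff_symmDiff_cancel_left A C) C =
    symmDiff A C := rfl
  rw [h0]
  unfold mat
  push_cast
  have h1 := wt_mul p hp (symmDiff A C) A
  have h2 : symmDiff (symmDiff A C) A = C := by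
    rw [symmDiff_comm A C, symmDiff_symmDiff_cancel_right]
  have h3 : symmDiff A C ∩ A = A \ C := by
    ext i
    simp only [mem_inter, mem_symmDiff, mem_sdiff]
    tauto
  rw [h2, h3] at h1
  rw [mul_assoc, h1]
  ring

lemma det_ne (hp : ∀ i, (p i).Prime) (hinj : Function.Injective p) (v : Finset I → ℤ)
    (hα : ∑ B, (v B : ℝ) * wt p B ≠ 0) : (mat p v).det ≠ 0 := by
  intro h0
  have h1 : ((mat p v).map (Int.castRingHom ℚ)).det = 0 := by
    have := RingHom.map_det (Int.castRingHom ℚ) (mat p v)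
    rw [h0, map_zero] at this
    exact this.symm
  obtain ⟨u, hu, hu0⟩ := Matrix.exists_mulVec_eq_zero_iff.2 h1
  apply hu
  have h2 : ∑ A, (u A : ℝ) * wt p A = 0 := by
    have h3 : (∑ B, (v B : ℝ) * wt p B) * ∑ A, (u A : ℝ) * wt p A = 0 := by
      rw [Finset.mul_sum]
      calc ∑ A, (∑ B, (v B : ℝ) * wt p B) * ((u A : ℝ) * wt p A)
          = ∑ A, (u A : ℝ) * ((∑ B, (v B : ℝ) * wt p B) * wt p A) := sum_congr rfl fun A _ => by ring
        _ = ∑ A, (u A : ℝ) * ∑ C, wt p C * (mat p v C A : ℝ) :=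
            sum_congr rfl fun A _ => by rw [mat_eig p hp v A]
        _ = ∑ A, ∑ C, wt p C * ((mat p v C A : ℝ) * u A) := by
            refine sum_congr rfl fun A _ => ?_
            rw [Finset.mul_sum]
            exact sum_congr rfl fun C _ => by ring
        _ = ∑ C, ∑ A, wt p C * ((mat p v C A : ℝ) * u A) := sum_comm
        _ = ∑ C, wt p C * ((((mat p v).map (Int.castRingHom ℚ)).mulVec u C : ℚ) : ℝ) := by
            refine sum_congr rfl fun C _ => ?_
            rw [← Finset.mul_sum]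
            congr 1
            unfold Matrix.mulVec dotProduct
            push_cast
            refine sum_congr rfl fun A _ => ?_
            simp [Matrix.map_apply]
        _ = 0 := by
            rw [hu0]
            simp
    exact (mul_eq_zero.1 h3).resolve_left hα
  have h4 := (Fintype.linearIndependent_iff.1 (wt_indep p hp hinj)) u (by
    rw [← h2]
    refine sum_congr rfl fun A _ => ?_
    exact Rat.smul_def (u A) (wt p A))
  exact funext h4

/-- **The lower bound.** -/
theorem liou (hp : ∀ i, (p i).Prime) (hinj : Function.Injective p) : ∃ c : ℝ, 0 < c ∧ ∀ v : Finset I → ℤ, v ≠ 0 →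
    ∀ H : ℝ, 1 ≤ H → (∀ B, |(v B : ℝ)| ≤ H) →
      c ≤ |∑ B, (v B : ℝ) * Real.sqrt (pr p B)| * H ^ (Fintype.card (Finset I)) := by
  classical
  obtain ⟨D, hD⟩ : ∃ D : ℕ, D = Fintype.card (Finset I) := ⟨_, rfl⟩
  obtain ⟨Q, hQ⟩ : ∃ Q : ℝ, Q = (pr p univ : ℝ) := ⟨_, rfl⟩
  have hQ1 : 1 ≤ Q := by
    rw [hQ]
    exact_mod_cast pr_pos p hp univ
  obtain ⟨W, hW⟩ : ∃ W : ℝ, W = D * (Real.sqrt Q * (D.factorial * Q ^ D)) := ⟨_, rfl⟩
  have hD1 : 1 ≤ D := by
    rw [hD]
    exact Fintype.card_pos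
  have hDR : (1 : ℝ) ≤ D := by exact_mod_cast hD1
  have hf1 : (1 : ℝ) ≤ D.factorial := by exact_mod_cast D.factorial_pos
  have hsQ : 0 < Real.sqrt Q := Real.sqrt_pos.2 (by linarith)
  have hW0 : 0 < W := by
    rw [hW]
    positivity
  refine ⟨1 / W, by positivity, fun v hv H hH hvH => ?_⟩
  rw [← hD]
  obtain ⟨α, hα⟩ : ∃ α : ℝ, α = ∑ B, (v B : ℝ) * wt p B := ⟨_, rfl⟩
  have hα0 : α ≠ 0 := by
    intro h0
    apply hv
    have h4 := (Fintype.linearIndependent_iff.1 (wt_indep p hp hinj)) (fun B => (v B : ℚ)) (by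
      rw [← h0, hα]
      refine sum_congr rfl fun A _ => ?_
      rw [Rat.smul_def]
      push_cast
      rfl)
    funext B
    have := h4 B
    exact_mod_cast this
  have hdet := det_ne p hp hinj v (by rw [← hα]; exact hα0)
  have hdet1 : (1 : ℝ) ≤ |((mat p v).det : ℝ)| := by
    have : (1 : ℤ) ≤ |(mat p v).det| := Int.one_le_abs hdet
    rw [← Int.cast_abs]
    exact_mod_cast this
  -- the identity
  have hid : ((mat p v).det : ℝ) * wt p ∅ = α * ∑ A, wt p A * ((mat p v).adjugate A ∅ : ℝ) := by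
    have h1 : mat p v * (mat p v).adjugate = (mat p v).det • (1 : Matrix (Finset I) (Finset I) ℤ) :=
      Matrix.mul_adjugate _
    have h2 : ∀ C, (∑ A, (mat p v C A : ℝ) * ((mat p v).adjugate A ∅ : ℝ)) =
        if C = ∅ then ((mat p v).det : ℝ) else 0 := by
      intro C
      have h3 := congrFun (congrFun h1 C) ∅
      rw [Matrix.mul_apply] at h3
      have h4 : (∑ A, (mat p v C A : ℝ) * ((mat p v).adjugate A ∅ : ℝ)) =
          ((∑ A, mat p v C A * (mat p v).adjugate A ∅ : ℤ) : ℝ) := by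
        push_cast
        rfl
      rw [h4, h3]
      simp [Matrix.one_apply]
    calc ((mat p v).det : ℝ) * wt p ∅ = ∑ C, wt p C * (if C = ∅ then ((mat p v).det : ℝ) else 0) := by
          simp [mul_comm]
      _ = ∑ C, wt p C * ∑ A, (mat p v C A : ℝ) * ((mat p v).adjugate A ∅ : ℝ) :=
          sum_congr rfl fun C _ => by rw [h2 C]
      _ = ∑ C, ∑ A, wt p C * ((mat p v C A : ℝ) * ((mat p v).adjugate A ∅ : ℝ)) :=
          sum_congr rfl fun C _ => Finset.mul_sum _ _ _
      _ = ∑ A, ∑ C, wt p C * ((mat p v C A : ℝ) * ((mat p v).adjugate A ∅ : ℝ)) := sum_comm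
      _ = ∑ A, (∑ C, wt p C * (mat p v C A : ℝ)) * ((mat p v).adjugate A ∅ : ℝ) := by
          refine sum_congr rfl fun A _ => ?_
          rw [Finset.sum_mul]
          exact sum_congr rfl fun C _ => by ring
      _ = ∑ A, α * (wt p A * ((mat p v).adjugate A ∅ : ℝ)) := by
          refine sum_congr rfl fun A _ => ?_
          rw [mat_eig p hp v A, ← hα]
          ring
      _ = _ := by rw [Finset.mul_sum]
  have hw0 : wt p ∅ = 1 := by
    unfold wt pr
    simp
  -- the entries
  have hentry : ∀ C A, |(mat p v C A : ℝ)| ≤ H * Q := by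
    intro C A
    unfold mat
    push_cast
    rw [abs_mul]
    apply mul_le_mul (hvH _) _ (abs_nonneg _) (by linarith)
    rw [Nat.abs_cast, hQ]
    exact_mod_cast pr_le p hp _
  have hHQ : 1 ≤ H * Q := by nlinarith
  have hadj : ∀ A, |((mat p v).adjugate A ∅ : ℝ)| ≤ D.factorial * (H * Q) ^ D := by
    intro A
    rw [Matrix.adjugate_apply]
    have h1 : ∀ i j, (IsAbsoluteValue.toAbsoluteValue (abs : ℝ → ℝ))
        ((((mat p v).updateRow ∅ (Pi.single A 1)).map (Int.castRingHom ℝ)) i j) ≤ H * Q := by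
      intro i j
      show |((((mat p v).updateRow ∅ (Pi.single A 1)).map (Int.castRingHom ℝ)) i j)| ≤ H * Q
      rw [Matrix.map_apply]
      by_cases hi : i = ∅
      · subst hi
        rw [Matrix.updateRow_self]
        by_cases hj : j = A
        · subst hj
          simpa using hHQ
        · rw [Pi.single_eq_of_ne hj]
          simp
          linarith
      · rw [Matrix.updateRow_ne hi]
        exact hentry i j
    have h2 := Matrix.det_le h1
    have h3 : (((mat p v).updateRow ∅ (Pi.single A 1)).map (Int.castRingHom ℝ)).det =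
        ((((mat p v).updateRow ∅ (Pi.single A 1)).det : ℤ) : ℝ) :=
      (RingHom.map_det (Int.castRingHom ℝ) _).symm
    rw [h3] at h2
    rw [← hD] at h2
    have h4 : |((((mat p v).updateRow ∅ (Pi.single A 1)).det : ℤ) : ℝ)| ≤ D.factorial • (H * Q) ^ D := h2
    rwa [nsmul_eq_mul] at h4
  have hsum : |∑ A, wt p A * ((mat p v).adjugate A ∅ : ℝ)| ≤ W * H ^ D := by
    calc |∑ A, wt p A * ((mat p v).adjugate A ∅ : ℝ)| ≤ ∑ A, |wt p A * ((mat p v).adjugate A ∅ : ℝ)| :=
          abs_sum_le_sum_abs _ _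
      _ ≤ ∑ _A : Finset I, Real.sqrt Q * (D.factorial * (H * Q) ^ D) := by
          refine sum_le_sum fun A _ => ?_
          rw [abs_mul, abs_of_pos (wt_pos p hp A)]
          exact mul_le_mul (by rw [hQ]; exact wt_le p hp A) (hadj A) (abs_nonneg _) hsQ.le
      _ = W * H ^ D := by
          rw [sum_const, card_univ, ← hD, nsmul_eq_mul, hW, mul_pow]
          ring
  have h5 : (1 : ℝ) ≤ |α| * (W * H ^ D) := by
    calc (1 : ℝ) ≤ |((mat p v).det : ℝ)| := hdet1
      _ = |((mat p v).det : ℝ) * wt p ∅| := by rw [hw0, mul_one]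
      _ = |α| * |∑ A, wt p A * ((mat p v).adjugate A ∅ : ℝ)| := by rw [hid, abs_mul]
      _ ≤ _ := mul_le_mul_of_nonneg_left hsum (abs_nonneg _)
  have h6 : |∑ B, (v B : ℝ) * Real.sqrt (pr p B)| = |α| := by
    rw [hα]
    rfl
  rw [h6, div_le_iff₀ hW0]
  linarith

end general

end Pool.Agent.Q54.FM
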