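import Pool.Agent.Q54.FM.Abs
import Pool.Agent.TH885.NW.Exp2

set_option autoImplicit false

/-!
# Near-uniform vectors of multiplicities: polynomial and prime sums, several numbers of points
-/

namespace Pool.Agent.Q54.FM

open Finset Polynomial Pool.Agent.Q29.Eqd

/-- `seqs_joint` for functions on a finite set, with any denominator -/
theorem seqs_fin_t (T : Finset ℕ) (hT : T.Nonempty) (σ u : ℕ → ℕ) (hsf : ∀ r ∈ T, Squarefree (σ r))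
    (h1 : ∀ r ∈ T, σ r ≠ 1) (hinj : ∀ r ∈ T, ∀ r' ∈ T, σ r = σ r' → r = r') (hu : ∀ r ∈ T, 1 ≤ u r)
    (t : ℕ) (ht : 1 ≤ t) (γ L : ℕ → ℝ) (hL0 : ∀ r ∈ T, 0 ≤ L r) (hL1 : ∀ r ∈ T, L r ≤ 1) (P : ℕ → Prop)
    (hP : ∀ m : ℕ, 0 < m → (∀ r ∈ T, L r < Int.fract (u r * Real.sqrt (σ r) / t * m + γ r)) → P m) (K : ℕ) :
    ∃ κ : ℝ, 0 < κ ∧ κ ≤ 1 ∧ ∃ M₀ : ℕ, 2 ≤ M₀ ∧ ∀ M : ℕ, M₀ ≤ M → Sparse κ K M (1 - ∏ r ∈ T, (1 - L r)) P := by
  classical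
  obtain ⟨e⟩ : Nonempty (Fin T.card ≃ {x // x ∈ T}) := ⟨T.equivFin.symm⟩
  have hs : 1 ≤ T.card := Finset.card_pos.2 hT
  obtain ⟨κ, hκ, hκ1, M₀, hM₀, h⟩ := seqs_joint hs (fun j => σ (e j)) (fun j => hsf _ (e j).2) (fun j => h1 _ (e j).2)
    (fun i j hij => e.injective (Subtype.ext (hinj _ (e i).2 _ (e j).2 hij))) (fun j => u (e j))
    (fun j => hu _ (e j).2) t ht K
  refine ⟨κ, hκ, hκ1, M₀, hM₀, fun M hM => ?_⟩
  have h2 := h M hM (fun j => γ (e j)) (fun j => L (e j)) (fun j => hL0 _ (e j).2) (fun j => hL1 _ (e j).2) P (by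
    intro m hm hj
    apply hP m hm
    intro r hr
    have h3 := hj (e.symm ⟨r, hr⟩)
    simp only [Equiv.apply_symm_apply] at h3
    exact_mod_cast h3)
  have h3 : ∏ j, (1 - L (e j)) = ∏ r ∈ T, (1 - L r) := by
    rw [← Finset.prod_coe_sort T (fun r => 1 - L r)]
    exact Fintype.prod_equiv e _ _ fun j => rfl
  rw [h3] at h2
  exact h2

/-- several numbers in different square classes, the multiples of `1 / √r` -/
theorem several_inv (T : Finset ℕ) (hT : T.Nonempty) (hsq : ∀ r ∈ T, ¬ IsSquare r)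
    (hpair : ∀ r ∈ T, ∀ r' ∈ T, r ≠ r' → ¬ IsSquare (r * r')) (γ L : ℕ → ℝ) (hL0 : ∀ r ∈ T, 0 ≤ L r)
    (hL1 : ∀ r ∈ T, L r ≤ 1) (P : ℕ → Prop)
    (hP : ∀ m : ℕ, 0 < m → (∀ r ∈ T, L r < Int.fract (m / Real.sqrt r + γ r)) → P m)
    (K : ℕ) :
    ∃ κ : ℝ, 0 < κ ∧ κ ≤ 1 ∧ ∃ M₀ : ℕ, 2 ≤ M₀ ∧ ∀ M : ℕ, M₀ ≤ M → Sparse κ K M (1 - ∏ r ∈ T, (1 - L r)) P := by
  classical
  have hdec : ∀ r : ℕ, ∃ a b : ℕ, b ^ 2 * a = r ∧ Squarefree a := Nat.sq_mul_squarefree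
  choose σ b hb hσ using hdec
  have hr0 : ∀ r ∈ T, r ≠ 0 := by
    rintro r hr rfl
    exact hsq 0 hr ⟨0, rfl⟩
  have hb1 : ∀ r ∈ T, 1 ≤ b r := by
    intro r hr
    by_contra hcon
    have h0 : b r = 0 := by omega
    apply hr0 r hr
    rw [← hb r, h0]
    simp
  have hprod : ∀ S : Finset ℕ, S ⊆ T → 1 ≤ ∏ r ∈ S, r := by
    intro S hS
    apply Nat.succ_le_of_lt
    apply Finset.prod_pos
    intro r hr
    exact Nat.pos_of_ne_zero (hr0 r (hS hr))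
  refine seqs_fin_t T hT σ (fun r => b r * ∏ r' ∈ T.erase r, r') (fun r _ => hσ r) ?_ ?_ ?_ (∏ r ∈ T, r)
    (hprod T subset_rfl) γ L hL0 hL1 P ?_ K
  · intro r hr h
    apply hsq r hr
    rw [← hb r, h, mul_one]
    exact ⟨b r, by ring⟩
  · intro r hr r' hr' h
    by_contra hne
    apply hpair r hr r' hr' hne
    refine ⟨b r * b r' * σ r, ?_⟩
    conv_lhs => rw [← hb r, ← hb r', ← h]
    ring
  · intro r hr
    exact Nat.one_le_iff_ne_zero.2 (mul_ne_zero (by have := hb1 r hr; omega)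
      (by have := hprod (T.erase r) (erase_subset _ _); omega))
  · intro m hm h
    apply hP m hm
    intro r hr
    have h2 := h r hr
    have h3 : Real.sqrt r = b r * Real.sqrt (σ r) := by
      conv_lhs => rw [← hb r]
      push_cast
      rw [Real.sqrt_mul (by positivity), Real.sqrt_sq (by positivity)]
    have hrpos : (0 : ℝ) < r := by exact_mod_cast Nat.pos_of_ne_zero (hr0 r hr)
    have hs0 : 0 < Real.sqrt r := Real.sqrt_pos.2 hrpos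
    have h4 : (∏ r' ∈ T, r' : ℕ) = r * ∏ r' ∈ T.erase r, r' := (Finset.mul_prod_erase T (fun x => x) hr).symm
    have h5 : (0 : ℝ) < ((∏ r' ∈ T.erase r, r' : ℕ) : ℝ) := by
      exact_mod_cast hprod (T.erase r) (erase_subset _ _)
    have h6 : ((b r * ∏ r' ∈ T.erase r, r' : ℕ) : ℝ) * Real.sqrt (σ r) / ((∏ r' ∈ T, r' : ℕ) : ℝ) * m =
        m / Real.sqrt r := by
      rw [h4, Nat.cast_mul, Nat.cast_mul]
      have h7 : (b r : ℝ) * ((∏ r' ∈ T.erase r, r' : ℕ) : ℝ) * Real.sqrt (σ r) =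
          ((∏ r' ∈ T.erase r, r' : ℕ) : ℝ) * Real.sqrt r := by
        rw [h3]
        ring
      rw [h7]
      have h8 : (r : ℝ) = Real.sqrt r * Real.sqrt r := (Real.mul_self_sqrt hrpos.le).symm
      generalize hE : ((∏ r' ∈ T.erase r, r' : ℕ) : ℝ) = E at h5 ⊢
      generalize hS : Real.sqrt r = S at h8 hs0 ⊢
      rw [h8]
      field_simp
    rw [h6] at h2
    exact h2

lemma fract_le2 {A B s y : ℝ} {d : ℕ} (h1 : -A ≤ 2 * (d : ℝ) + 3 - (s + 2 * y))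
    (h2 : 2 * (d : ℝ) + 3 - (s + 2 * y) ≤ B) : Int.fract (y + (s - 3 + B) / 2) ≤ (A + B) / 2 := by
  have h3 : ((d : ℤ) : ℝ) ≤ y + (s - 3 + B) / 2 := by
    push_cast
    linarith
  have h4 := Int.le_floor.2 h3
  have h5 : ((d : ℤ) : ℝ) ≤ (⌊y + (s - 3 + B) / 2⌋ : ℝ) := by exact_mod_cast h4
  rw [← Int.self_sub_floor]
  push_cast at h5
  linarith

/-- Several numbers of points at once: windows around `√n + 2 W / √n`. -/
theorem near_several (G : ℕ → ℕ → Prop) (T : Finset ℕ) (hT : T.Nonempty) (hsq : ∀ n ∈ T, ¬ IsSquare n)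
    (hpair : ∀ n ∈ T, ∀ n' ∈ T, n ≠ n' → ¬ IsSquare (n * n')) (A B : ℕ → ℝ)
    (hAB : ∀ n ∈ T, 0 ≤ A n + B n ∧ A n + B n ≤ 2)
    (H : ∀ n ∈ T, ∀ W : ℕ, 0 < W → ¬ G n W → ∃ d : ℕ,
      -A n ≤ 2 * (d : ℝ) + 3 - (Real.sqrt n + 2 * W / Real.sqrt n) ∧
      2 * (d : ℝ) + 3 - (Real.sqrt n + 2 * W / Real.sqrt n) ≤ B n)
    (P : ℕ → Prop) (hP : ∀ W : ℕ, 0 < W → (∀ n ∈ T, G n W) → P W) (K : ℕ) :
    ∃ κ : ℝ, 0 < κ ∧ κ ≤ 1 ∧ ∃ M₀ : ℕ, 2 ≤ M₀ ∧ ∀ M : ℕ, M₀ ≤ M →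
      Sparse κ K M (1 - ∏ n ∈ T, (1 - (A n + B n) / 2)) P := by
  refine several_inv T hT hsq hpair (fun n => (Real.sqrt n - 3 + B n) / 2) (fun n => (A n + B n) / 2)
    (fun n hn => ?_) (fun n hn => ?_) P ?_ K
  · have := (hAB n hn).1
    positivity
  · have := (hAB n hn).2
    linarith
  · intro W hW h
    apply hP W hW
    intro n hn
    have h0 := h n hn
    by_contra hcon
    obtain ⟨d, hd1, hd2⟩ := H n hn W hW hcon
    have e : 2 * (W : ℝ) / Real.sqrt n = 2 * (W / Real.sqrt n) := by ring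
    rw [e] at hd1 hd2
    have h1 := fract_le2 hd1 hd2
    linarith

end Pool.Agent.Q54.FM
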