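import Pool.Agent.Q54.FM.Near
import Pool.Agent.TH105.NU.All
import Pool.Agent.TH2.NU.Final
import Pool.Agent.TH759.EV.Pow

set_option autoImplicit false

/-!
# Near-uniform vectors: the numbers of points without exceptions, and all inputs together
-/

namespace Pool.Agent.Q54.FM

open Finset

/-- All vectors `w ∈ {m, m + 1} ^ n`, `m ≥ 1`, of sum `W`: the expected dimension in all degrees at general points. -/
def GN (n W : ℕ) : Prop :=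
  ∀ m : ℕ, 1 ≤ m → ∀ w : Fin n → ℕ, (∀ i, w i = m ∨ w i = m + 1) → ∑ i, w i = W →
    ∃ F : MvPolynomial (Fin n × Fin 2) ℚ, F ≠ 0 ∧ ∀ P : Fin n → Fin 2 → ℂ,
      MvPolynomial.aeval (fun ij : Fin n × Fin 2 => P ij.1 ij.2) F ≠ 0 →
      ∀ d : ℕ, H932R3.ExpDim ℂ w P d

/-- The numbers of points for which there are no exceptions. -/
def Free (N0 n : ℕ) : Prop :=
  N0 ≤ n ∨ (144 ≤ n ∧ 4 ∣ n) ∨ ∃ j, n = 4 ^ (j + 2) ∨ n = 9 * 4 ^ (j + 1) ∨ n = 13 * 4 ^ j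

theorem free_all : ∃ N0 : ℕ, 10 ≤ N0 ∧ ∀ n : ℕ, Free N0 n → ∀ W : ℕ, GN n W := by
  obtain ⟨N0, hN0⟩ := Pool.Agent.TH105.NU.expDim_near
  refine ⟨max N0 10, le_max_right _ _, fun k hk W m h0 w hm _ => ?_⟩
  rcases hk with hk | ⟨hk, N, rfl⟩ | ⟨j, hj⟩
  · exact hN0 k ((le_max_left _ _).trans hk) m h0 w hm
  · exact Pool.Agent.TH2.NU.near4 (by omega) h0 hm
  · obtain ⟨F, hF, hF'⟩ := Pool.Agent.TH759.EV.expDim_of_NU (Pool.Agent.TH759.EV.NU_all hj) h0 hm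
    exact ⟨F, hF, fun P hP d => hF' P hP d⟩

theorem near_input {n W : ℕ} (hn : 10 ≤ n) (hbad : ¬ GN n W) : ∃ d : ℕ,
    -TH885.NW.loW n ≤ 2 * (d : ℝ) + 3 - (Real.sqrt n + 2 * W / Real.sqrt n) ∧
    2 * (d : ℝ) + 3 - (Real.sqrt n + 2 * W / Real.sqrt n) ≤ TH885.NW.upW n := by
  by_contra hcon
  push Not at hcon
  apply hbad
  intro m hm w hw hsum
  obtain ⟨F, hF, hF'⟩ := TH885.NW.exp_near2 (L := ℂ) hn hm hw
  refine ⟨F, hF, fun P hP d => hF' P hP d ?_⟩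
  have hs : (∑ i, (w i : ℝ)) = W := by rw [← hsum]; push_cast; rfl
  rw [hs]
  rcases le_or_gt (-TH885.NW.loW n) (2 * (d : ℝ) + 3 - (Real.sqrt n + 2 * W / Real.sqrt n)) with h | h
  · exact Or.inl (hcon d h)
  · exact Or.inr h

/-- Near-uniform vectors: several numbers of points at once. -/
theorem near_all (G : ℕ → ℕ → Prop) (hG : ∀ n W : ℕ, GN n W → G n W) :
    ∃ N0 : ℕ, ∀ T : Finset ℕ, T.Nonempty → (∀ n ∈ T, 10 ≤ n ∧ ¬ IsSquare n) →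
      (∀ n ∈ T, ∀ n' ∈ T, n ≠ n' → ¬ IsSquare (n * n')) →
      0 < ∏ n ∈ T, (1 - (TH885.NW.loW n + TH885.NW.upW n) / 2) ∧
      ∀ K : ℕ, ∃ κ : ℝ, 0 < κ ∧ κ ≤ 1 ∧ ∃ M₀ : ℕ, 2 ≤ M₀ ∧ ∀ M : ℕ, M₀ ≤ M →
        Sparse κ K M (1 - ∏ n ∈ T, (1 - (TH885.NW.loW n + TH885.NW.upW n) / 2))
          (fun W => ∀ n, n ∈ T ∨ Free N0 n → G n W) := by
  obtain ⟨N0, -, hfree⟩ := free_all
  refine ⟨N0, fun T hT h10 hpair => ⟨?_, fun K => ?_⟩⟩
  · apply Finset.prod_pos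
    intro n hn
    have := (TH885.NW.win_len (h10 n hn).1).2.2
    linarith
  · refine near_several (fun n W => GN n W) T hT (fun n hn => (h10 n hn).2) hpair TH885.NW.loW TH885.NW.upW
      (fun n hn => ?_) (fun n hn W _ hbad => near_input (h10 n hn).1 hbad) _ ?_ K
    · obtain ⟨g1, g2, g3⟩ := TH885.NW.win_len (h10 n hn).1
      exact ⟨by linarith, by linarith⟩
    · intro W _ h n hn
      rcases hn with hn | hn
      · exact hG n W (h n hn)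
      · exact hG n W (hfree n hn W)

end Pool.Agent.Q54.FM
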