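import Pool.Agent.Q54.FM.Seq

set_option autoImplicit false

namespace Pool.Agent.Q54.FM

open Finset Polynomial

/-- `seqs` in terms of the numbers of elements of sets. -/
theorem sets (K : ℕ) : ∃ κ : ℝ, 0 < κ ∧ κ ≤ 1 ∧ ∃ M₀ : ℕ, 2 ≤ M₀ ∧ ∀ r : ℕ, ¬ IsSquare r → ∀ M : ℕ, M₀ ≤ M →
    9 * r < M → ∀ (A B : ℝ), 0 ≤ A + B → ∀ P : ℕ → Prop,
    (∀ m : ℕ, 0 < m → ¬ P m → ∃ d : ℕ, -A ≤ 2 * (d : ℝ) + 3 - Real.sqrt r * (2 * m + 1) ∧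
      2 * (d : ℝ) + 3 - Real.sqrt r * (2 * m + 1) ≤ B) →
    (∀ f : ℤ[X], 1 ≤ f.natDegree → f.natDegree ≤ K → |(f.leadingCoeff : ℝ)| ≤ (M : ℝ) ^ κ →
      ({n : ℕ | n < M ∧ 0 < f.eval (n : ℤ) ∧ ¬ P (f.eval (n : ℤ)).toNat}.ncard : ℝ) ≤
        (A + B) / 2 * M + 2 * (M : ℝ) ^ (1 - κ)) ∧
    (∀ b h : ℤ, b ≠ 0 → |(b : ℝ)| ≤ (M : ℝ) ^ κ → ∀ d a : ℕ, 1 ≤ d → (d : ℝ) ≤ (M : ℝ) ^ κ →
      ({p : ℕ | p ≤ M ∧ p.Prime ∧ p ≡ a [MOD d] ∧ 0 < b * p + h ∧ ¬ P (b * p + h).toNat}.ncard : ℝ) ≤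
        (A + B) / 2 * ({p : ℕ | p ≤ M ∧ p.Prime ∧ p ≡ a [MOD d]}.ncard : ℝ) + 2 * (M : ℝ) ^ (1 - κ)) := by
  classical
  obtain ⟨κ, hκ, hκ1, M₀, hM₀, h⟩ := seqs K
  refine ⟨κ, hκ, hκ1, M₀, hM₀, fun r hr M hM hMr A B hAB P hP => ?_⟩
  obtain ⟨h1, h2⟩ := h r hr M hM hMr A B hAB (fun m => ¬ P m) hP
  constructor
  · intro f hf1 hfK hlc
    have h3 := h1 f hf1 hfK hlc
    have hs : {n : ℕ | n < M ∧ 0 < f.eval (n : ℤ) ∧ ¬ P (f.eval (n : ℤ)).toNat} =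
        ↑((range M).filter fun n : ℕ => 0 < f.eval (n : ℤ) ∧ ¬ P (f.eval (n : ℤ)).toNat) := by
      ext n
      simp only [Set.mem_ofPred_eq, coe_filter, mem_range]
    rw [hs, Set.ncard_coe_finset]
    convert h3
  · intro b h hb hbM d a hd hdM
    have h3 := h2 b h hb hbM d a hd hdM
    have hs : {p : ℕ | p ≤ M ∧ p.Prime ∧ p ≡ a [MOD d] ∧ 0 < b * p + h ∧ ¬ P (b * p + h).toNat} =
        ↑((range (M + 1)).filter fun p : ℕ => (p.Prime ∧ p ≡ a [MOD d]) ∧ 0 < b * p + h ∧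
          ¬ P (b * p + h).toNat) := by
      ext n
      simp only [Set.mem_ofPred_eq, coe_filter, mem_range]
      constructor
      · rintro ⟨h4, h5, h6, h7⟩
        exact ⟨by omega, ⟨h5, h6⟩, h7⟩
      · rintro ⟨h4, ⟨h5, h6⟩, h7⟩
        exact ⟨by omega, h5, h6, h7⟩
    have hs' : {p : ℕ | p ≤ M ∧ p.Prime ∧ p ≡ a [MOD d]} =
        ↑((range (M + 1)).filter fun p : ℕ => p.Prime ∧ p ≡ a [MOD d]) := by
      ext n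
      simp only [Set.mem_ofPred_eq, coe_filter, mem_range]
      constructor
      · rintro ⟨h4, h5⟩
        exact ⟨by omega, h5⟩
      · rintro ⟨h4, h5⟩
        exact ⟨by omega, h5⟩
    rw [hs, hs', Set.ncard_coe_finset, Set.ncard_coe_finset]
    convert h3

end Pool.Agent.Q54.FM
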