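import Pool.Agent.Q54.FM.Box

set_option autoImplicit false

/-!
# Properties of natural numbers given by the fractional parts of the multiples of several square roots
-/

namespace Pool.Agent.Q54.FM

open Finset Polynomial Pool.Agent.Q29.Eqd

theorem seqs_joint {s : ℕ} (hs : 1 ≤ s) (σ : Fin s → ℕ) (hsf : ∀ j, Squarefree (σ j)) (h1 : ∀ j, σ j ≠ 1)
    (hinj : Function.Injective σ) (u : Fin s → ℕ) (hu : ∀ j, 1 ≤ u j) (t : ℕ) (ht : 1 ≤ t) (K : ℕ) :
    ∃ κ : ℝ, 0 < κ ∧ κ ≤ 1 ∧ ∃ M₀ : ℕ, 2 ≤ M₀ ∧ ∀ M : ℕ, M₀ ≤ M → ∀ γ L : Fin s → ℝ, (∀ j, 0 ≤ L j) →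
    (∀ j, L j ≤ 1) → ∀ P : ℕ → Prop,
    (∀ m : ℕ, 0 < m → (∀ j, L j < Int.fract (u j * Real.sqrt (σ j) / t * m + γ j)) → P m) →
    (∀ f : ℤ[X], 1 ≤ f.natDegree → f.natDegree ≤ K → |(f.leadingCoeff : ℝ)| ≤ (M : ℝ) ^ κ →
      ({n : ℕ | n < M ∧ 0 < f.eval (n : ℤ) ∧ ¬ P (f.eval (n : ℤ)).toNat}.ncard : ℝ) ≤
        (1 - ∏ j, (1 - L j)) * M + (M : ℝ) ^ (1 - κ)) ∧
    (∀ b h : ℤ, b ≠ 0 → |(b : ℝ)| ≤ (M : ℝ) ^ κ → ∀ d a : ℕ, 1 ≤ d → (d : ℝ) ≤ (M : ℝ) ^ κ →
      ({p : ℕ | p ≤ M ∧ p.Prime ∧ p ≡ a [MOD d] ∧ 0 < b * p + h ∧ ¬ P (b * p + h).toNat}.ncard : ℝ) ≤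
        (1 - ∏ j, (1 - L j)) * ({p : ℕ | p ≤ M ∧ p.Prime ∧ p ≡ a [MOD d]}.ncard : ℝ) + (M : ℝ) ^ (1 - κ)) := by
  classical
  obtain ⟨κ₀, hκ₀, hκ₀1, M₁, hM₁, hJ⟩ := joint_sqrt hs σ hsf h1 hinj u hu t ht K
  obtain ⟨κ, hκ, hκκ, M₂, hM₂, hB⟩ := box_power s κ₀ hκ₀ hκ₀1
  refine ⟨κ, hκ, hκκ.trans hκ₀1, max M₁ M₂, hM₁.trans (le_max_left _ _), fun M hM γ L hL0 hL1 P hP => ?_⟩
  have hMM1 : M₁ ≤ M := (le_max_left _ _).trans hM
  have hMM2 : M₂ ≤ M := (le_max_right _ _).trans hM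
  have hMpos : 1 ≤ M := by omega
  have hM1 : (1 : ℝ) ≤ M := by exact_mod_cast hMpos
  have hpow : (M : ℝ) ^ κ ≤ (M : ℝ) ^ κ₀ := Real.rpow_le_rpow_of_exponent_le hM1 hκκ
  have hgood : ∀ z : ℤ, 0 < z → (∀ j, L j < Int.fract (u j * Real.sqrt (σ j) / t * z + γ j)) → P z.toNat := by
    intro z hz h
    apply hP _ (by omega)
    have h3 : ((z.toNat : ℕ) : ℝ) = (z : ℝ) := by
      have : ((z.toNat : ℕ) : ℤ) = z := Int.toNat_of_nonneg hz.le
      exact_mod_cast congrArg (fun y : ℤ => (y : ℝ)) this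
    rw [h3]
    exact h
  constructor
  · intro f hf1 hfK hlc
    have hf0 : f ≠ 0 := by
      rintro rfl
      simp at hf1
    obtain ⟨g, hg⟩ : ∃ g : ℝ[X], g = f.eraseLead.map (Int.castRingHom ℝ) := ⟨_, rfl⟩
    have hgdeg : g.degree < (f.natDegree : WithBot ℕ) := by
      rw [hg]
      refine lt_of_le_of_lt degree_map_le ?_
      rw [← degree_eq_natDegree hf0]
      exact degree_eraseLead_lt hf0
    have hR : ∀ j : Fin s, (C (u j * Real.sqrt (σ j) / t) * g + C (γ j)).degree < (f.natDegree : WithBot ℕ) := by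
      intro j
      refine lt_of_le_of_lt (degree_add_le _ _) (max_lt ?_ ?_)
      · rw [← smul_eq_C_mul]
        exact lt_of_le_of_lt (degree_smul_le _ _) hgdeg
      · refine lt_of_le_of_lt degree_C_le ?_
        exact_mod_cast hf1
    have h2 := (hJ M hMM1 f.leadingCoeff (leadingCoeff_ne_zero.2 hf0) (hlc.trans hpow)).1 f.natDegree hf1 hfK
      (fun j => C (u j * Real.sqrt (σ j) / t) * g + C (γ j)) hR
    have h3 := hB M hMM2 (range M) _ (by rw [card_range]) h2 L hL0 hL1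
      ((range M).filter fun n : ℕ => 0 < f.eval (n : ℤ) ∧ ¬ P (f.eval (n : ℤ)).toNat) (by
        intro n _ hn hn'
        rw [mem_filter] at hn'
        apply hn'.2.2
        apply hgood _ hn'.2.1
        intro j
        have h4 := hn j
        have h5 : (f.leadingCoeff : ℝ) * (u j * Real.sqrt (σ j) / t) * (n : ℝ) ^ f.natDegree +
            (C (u j * Real.sqrt (σ j) / t) * g + C (γ j)).eval (n : ℝ) =
            u j * Real.sqrt (σ j) / t * (f.eval (n : ℤ) : ℤ) + γ j := by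
          have h6 : ((f.eval (n : ℤ) : ℤ) : ℝ) = g.eval (n : ℝ) + f.leadingCoeff * (n : ℝ) ^ f.natDegree := by
            conv_lhs => rw [← eraseLead_add_C_mul_X_pow f]
            rw [eval_add, eval_mul, eval_C, eval_pow, eval_X]
            have h7 : g.eval (n : ℝ) = ((f.eraseLead.eval (n : ℤ) : ℤ) : ℝ) := by
              rw [hg, eval_map, ← Int.cast_natCast (R := ℝ) n]
              exact (hom_eval₂ f.eraseLead (RingHom.id ℤ) (Int.castRingHom ℝ) (n : ℤ)).symm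
            rw [h7]
            push_cast
            ring
          rw [h6, eval_add, eval_mul, eval_C, eval_C]
          ring
        rwa [h5] at h4) (filter_subset _ _)
    rw [card_range] at h3
    have hset : {n : ℕ | n < M ∧ 0 < f.eval (n : ℤ) ∧ ¬ P (f.eval (n : ℤ)).toNat} =
        ↑((range M).filter fun n : ℕ => 0 < f.eval (n : ℤ) ∧ ¬ P (f.eval (n : ℤ)).toNat) := by
      ext n
      simp only [Set.mem_ofPred_eq, coe_filter, mem_range]
    rw [hset, Set.ncard_coe_finset]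
    convert h3
  · intro b h hb hbM d a hd hdM
    have h2 := (hJ M hMM1 b hb (hbM.trans hpow)).2 d a hd (hdM.trans hpow)
      (fun j => u j * Real.sqrt (σ j) / t * h + γ j)
    have hset' : {p : ℕ | p ≤ M ∧ p.Prime ∧ p ≡ a [MOD d]} =
        ↑((range (M + 1)).filter fun p : ℕ => p.Prime ∧ p ≡ a [MOD d]) := by
      ext n
      simp only [Set.mem_ofPred_eq, coe_filter, mem_range]
      constructor
      · rintro ⟨h4, h5⟩
        exact ⟨by omega, h5⟩
      · rintro ⟨h4, h5⟩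
        exact ⟨by omega, h5⟩
    have hcard : ((range (M + 1)).filter fun p : ℕ => p.Prime ∧ p ≡ a [MOD d]).card ≤ M := by
      have hsub : ((range (M + 1)).filter fun p : ℕ => p.Prime ∧ p ≡ a [MOD d]) ⊆ Ioc 0 M := by
        intro p hp
        rw [mem_filter, mem_range] at hp
        rw [mem_Ioc]
        exact ⟨hp.2.1.pos, by omega⟩
      have h3 := card_le_card hsub
      rwa [Nat.card_Ioc, Nat.sub_zero] at h3
    have h3 := hB M hMM2 ((range (M + 1)).filter fun p : ℕ => p.Prime ∧ p ≡ a [MOD d]) _ hcard h2 L hL0 hL1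
      (((range (M + 1)).filter fun p : ℕ => p.Prime ∧ p ≡ a [MOD d]).filter fun p : ℕ =>
        0 < b * p + h ∧ ¬ P (b * p + h).toNat) (by
        intro p _ hn hn'
        rw [mem_filter] at hn'
        apply hn'.2.2
        apply hgood _ hn'.2.1
        intro j
        have h4 := hn j
        have h5 : (b : ℝ) * (u j * Real.sqrt (σ j) / t) * (p : ℝ) + (u j * Real.sqrt (σ j) / t * h + γ j) =
            u j * Real.sqrt (σ j) / t * ((b * p + h : ℤ) : ℝ) + γ j := by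
          push_cast
          ring
        rwa [h5] at h4) (filter_subset _ _)
    have hset : {p : ℕ | p ≤ M ∧ p.Prime ∧ p ≡ a [MOD d] ∧ 0 < b * p + h ∧ ¬ P (b * p + h).toNat} =
        ↑(((range (M + 1)).filter fun p : ℕ => p.Prime ∧ p ≡ a [MOD d]).filter fun p : ℕ =>
          0 < b * p + h ∧ ¬ P (b * p + h).toNat) := by
      ext n
      simp only [Set.mem_ofPred_eq, coe_filter, mem_range, mem_filter]
      constructor
      · rintro ⟨h4, h5, h6, h7⟩
        exact ⟨⟨by omega, h5, h6⟩, h7⟩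
      · rintro ⟨⟨h4, h5, h6⟩, h7⟩
        exact ⟨by omega, h5, h6, h7⟩
    rw [hset, hset', Set.ncard_coe_finset, Set.ncard_coe_finset]
    convert h3

end Pool.Agent.Q54.FM
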